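import Mathlib

set_option autoImplicit false

namespace Pool.Agent.Results.MP_fc4263_co.NoCheegerSubgraph

open Classical

/-! ### The notions of the question -/

/-- the closed ball of radius `r` about `v` -/
def ball {V : Type} (G : SimpleGraph V) (v : V) (r : ℝ) : Set V :=
  {u | G.Reachable v u ∧ (G.dist v u : ℝ) ≤ r}

/-- uniform volume growth -/
def UniformVolumeGrowth {V : Type} (G : SimpleGraph V) : Prop :=
  ∃ C : ℝ, 0 < C ∧ ∀ (u v : V) (r : ℝ), 0 < r →
    ((ball G v r).ncard : ℝ) ≤ C * ((ball G u r).ncard : ℝ)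

/-- exponential growth -/
def ExponentialGrowth {V : Type} (G : SimpleGraph V) : Prop :=
  ∃ a K : ℝ, 1 < a ∧ 0 < K ∧ ∀ (v : V) (r : ℝ), 0 < r → K * a ^ r < ((ball G v r).ncard : ℝ)

/-- the edges of `H` with exactly one endpoint in `S` -/
def edgeBoundary {W : Type} (H : SimpleGraph W) (S : Set W) : Set (Sym2 W) :=
  {e | ∃ a b, H.Adj a b ∧ a ∈ S ∧ b ∉ S ∧ e = s(a, b)}

/-- the Cheeger constant of a graph: the infimum of `|∂S| / |S|` over the finite nonempty sets
of vertices -/
noncomputable def cheeger {W : Type} (H : SimpleGraph W) : ENNReal :=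
  ⨅ (S : Finset W) (_ : S.Nonempty),
    ((edgeBoundary H (S : Set W)).encard : ENNReal) / ((S.card : ℕ) : ENNReal)

/-! ### The construction -/

section
/-- words in three letters -/
abbrev Wd := List (Fin 3)

/-- reduced words: no two consecutive letters are equal -/
def Red (w : Wd) : Prop := List.IsChain (fun a b => a ≠ b) w

theorem red_nil : Red [] := List.isChain_nil
theorem red_single (a : Fin 3) : Red [a] := List.isChain_singleton a
theorem red_cons_cons {a b : Fin 3} {l : Wd} : Red (a :: b :: l) ↔ a ≠ b ∧ Red (b :: l) :=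
  List.isChain_cons_cons
theorem red_split {l : Wd} {c : Fin 3} {l' : Wd} :
    Red (l ++ c :: l') ↔ Red (l ++ [c]) ∧ Red (c :: l') := List.isChain_split
theorem red_tail {a : Fin 3} {l : Wd} (h : Red (a :: l)) : Red l := by
  cases l with
  | nil => exact red_nil
  | cons b l => exact (red_cons_cons.1 h).2

theorem red_append_left {l l' : Wd} (h : Red (l ++ l')) : Red l := by
  unfold Red at *
  exact (List.isChain_append.1 h).1

theorem red_append_right {l l' : Wd} (h : Red (l ++ l')) : Red l' := by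
  unfold Red at *
  exact (List.isChain_append.1 h).2.1

/-- run a word with a family of moves -/
def run {B : Type} (s : Fin 3 → B → B) (x : B) : Wd → B
  | [] => x
  | f :: w => run s (s f x) w

theorem run_append {B : Type} (s : Fin 3 → B → B) (x : B) (w w' : Wd) :
    run s x (w ++ w') = run s (run s x w) w' := by
  induction w generalizing x with
  | nil => rfl
  | cons f w ih => simp only [List.cons_append, run]; exact ih _

structure Block where
  B : Type
  fin : Finite B
  s : Fin 3 → B → B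
  inv : ∀ f x, s f (s f x) = x
  up : B → Prop
  d : B
  k : ℕ
  D : ℕ
  l : ℕ
  girth : ∀ x w w', Red w → Red w' → w.length ≤ l + 2 → w'.length ≤ l + 2 →
    run s x w = run s x w' → w = w'
  prim : ∀ x, up x → ¬ up (s 2 x)
  sep : ∀ u u' w w', (up u ∨ up (s 2 u)) → (up u' ∨ up (s 2 u')) → Red (2 :: w) → Red (2 :: w') →
    w.length ≤ k → w'.length ≤ k → run s u w = run s u' w' → u = u' ∧ w = w'
  sepd : ∀ u w, (up u ∨ up (s 2 u)) → Red (2 :: w) → w.length ≤ k →
    run s u w ≠ d ∧ run s u w ≠ s 2 d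
  dportf : ¬ (up d ∨ up (s 2 d))
  dense : ∀ y e, ∃ w, w.length < D ∧ Red (e :: w ++ [2]) ∧
    (up (run s y w) ∨ up (s 2 (run s y w)))

namespace Block

variable (b : Block)

def port (x : b.B) : Prop := b.up x ∨ b.up (b.s 2 x)

theorem port_s (x : b.B) : b.port (b.s 2 x) ↔ b.port x := by
  unfold port; rw [b.inv]; tauto

theorem sne (f : Fin 3) (x : b.B) : b.s f x ≠ x := by
  intro h
  have := b.girth x [f] [] (red_single f) red_nil (by simp) (by simp) (by simpa [run] using h)
  simp at this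

/-- number of reduced words of length `t` from `x` with last letter `e` that do not cross a port -/
noncomputable def S : ℕ → b.B → Fin 3 → ℕ
  | 0, _, _ => 1
  | t+1, x, e => ∑ f ∈ Finset.univ.filter (fun f => f ≠ e),
      if f = 2 ∧ b.port x then 0 else S t (b.s f x) f

theorem card_ne (e : Fin 3) : (Finset.univ.filter (fun f => f ≠ e)).card = 2 := by
  revert e; decide

theorem S_le (t : ℕ) (x : b.B) (e : Fin 3) : b.S t x e ≤ 2 ^ t := by
  induction t generalizing x e with
  | zero => simp [S]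
  | succ t ih =>
    simp only [S]
    calc _ ≤ ∑ f ∈ Finset.univ.filter (fun f => f ≠ e), 2 ^ t := by
          apply Finset.sum_le_sum
          intro f _
          split_ifs
          · exact Nat.zero_le _
          · exact ih _ _
      _ = 2 ^ (t + 1) := by
          rw [Finset.sum_const, card_ne]; simp [pow_succ, mul_comm]

theorem S_add (s t : ℕ) (A : ℕ) (hA : ∀ x e, b.S t x e ≤ A) (x : b.B) (e : Fin 3) :
    b.S (s + t) x e ≤ b.S s x e * A := by
  induction s generalizing x e with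
  | zero => simpa [S] using hA x e
  | succ s ih =>
    rw [Nat.succ_add]
    simp only [S]
    rw [Finset.sum_mul]
    apply Finset.sum_le_sum
    intro f _
    split_ifs
    · simp
    · exact ih _ _

theorem S_lt (w : Wd) (t : ℕ) (x : b.B) (e : Fin 3) (hr : Red (e :: w ++ [2]))
    (hp : b.port (run b.s x w)) : b.S (w.length + 1 + t) x e < 2 ^ (w.length + 1 + t) := by
  induction w generalizing x e with
  | nil =>
    have he : e ≠ 2 := (red_cons_cons.1 hr).1
    simp only [List.length_nil, Nat.zero_add]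
    rw [Nat.add_comm 1 t]
    simp only [S]
    have h2 : (2 : Fin 3) ∈ Finset.univ.filter (fun f => f ≠ e) := by
      simp; exact he.symm
    calc _ < ∑ f ∈ Finset.univ.filter (fun f => f ≠ e), 2 ^ t := by
          apply Finset.sum_lt_sum
          · intro f _
            split_ifs
            · exact Nat.zero_le _
            · exact b.S_le _ _ _
          · refine ⟨2, h2, ?_⟩
            have : b.port x := hp
            simp [this]
      _ = 2 ^ (t + 1) := by
          rw [Finset.sum_const, card_ne]; simp [pow_succ, mul_comm]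
  | cons f w ih =>
    have hr' := red_cons_cons.1 hr
    have h2 : f ∈ Finset.univ.filter (fun f => f ≠ e) := by
      simp; exact hr'.1.symm
    have e1 : (f :: w).length + 1 + t = (w.length + 1 + t) + 1 := by simp; ring
    rw [e1]
    simp only [S]
    calc _ < ∑ f ∈ Finset.univ.filter (fun f => f ≠ e), 2 ^ (w.length + 1 + t) := by
          apply Finset.sum_lt_sum
          · intro f _
            split_ifs
            · exact Nat.zero_le _
            · exact b.S_le _ _ _
          · refine ⟨f, h2, ?_⟩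
            split_ifs
            · positivity
            · exact ih _ _ hr'.2 hp
      _ = 2 ^ (w.length + 1 + t + 1) := by
          rw [Finset.sum_const, card_ne]; simp [pow_succ, mul_comm]

theorem S_D (x : b.B) (e : Fin 3) : b.S b.D x e ≤ 2 ^ b.D - 1 := by
  obtain ⟨w, hw, hr, hp⟩ := b.dense x e
  obtain ⟨t, ht⟩ := Nat.exists_eq_add_of_le (Nat.succ_le_of_lt hw)
  have := b.S_lt w t x e hr hp
  rw [ht]
  simp only [Nat.succ_eq_add_one]
  omega

theorem S_Dn (n : ℕ) (x : b.B) (e : Fin 3) : b.S (b.D * n) x e ≤ (2 ^ b.D - 1) ^ n := by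
  induction n generalizing x e with
  | zero => simp [S]
  | succ n ih =>
    rw [Nat.mul_succ, Nat.add_comm]
    calc _ ≤ b.S b.D x e * (2 ^ b.D - 1) ^ n := b.S_add _ _ _ ih x e
      _ ≤ (2 ^ b.D - 1) * (2 ^ b.D - 1) ^ n := Nat.mul_le_mul_right _ (b.S_D x e)
      _ = _ := by rw [pow_succ, mul_comm]

end Block

end

section
inductive Z (F : ℕ → Block) : ℕ → Type
  | root : Z F 0
  | ch (i : ℕ) (z : Z F i) (u : {x : (F i).B // (F i).up x}) : Z F (i+1)

structure V (F : ℕ → Block) where
  lev : ℕ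
  z : Z F lev
  x : (F lev).B

variable {F : ℕ → Block}

def Z.par {i : ℕ} : Z F (i+1) → Z F i
  | Z.ch _ z _ => z

def Z.pu {i : ℕ} : Z F (i+1) → {x : (F i).B // (F i).up x}
  | Z.ch _ _ u => u

theorem Z.eta {i : ℕ} (z : Z F (i+1)) : Z.ch i z.par z.pu = z := by
  cases z; rfl

theorem Z.par_ch (i : ℕ) (z : Z F i) (u : {x : (F i).B // (F i).up x}) : (Z.ch i z u).par = z := rfl
theorem Z.pu_ch (i : ℕ) (z : Z F i) (u : {x : (F i).B // (F i).up x}) : (Z.ch i z u).pu = u := rfl

noncomputable def dn : (i : ℕ) → Z F i → (F i).B → V F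
  | 0, z, x => ⟨0, z, (F 0).s 2 x⟩
  | i+1, z, x => if x = (F (i+1)).d then ⟨i, z.par, z.pu.1⟩
      else if x = (F (i+1)).s 2 (F (i+1)).d then ⟨i, z.par, (F i).s 2 z.pu.1⟩
      else ⟨i+1, z, (F (i+1)).s 2 x⟩

noncomputable def cS (i : ℕ) (z : Z F i) (x : (F i).B) : V F :=
  if h : (F i).up x then ⟨i+1, Z.ch i z ⟨x, h⟩, (F (i+1)).d⟩
  else if h : (F i).up ((F i).s 2 x) then ⟨i+1, Z.ch i z ⟨(F i).s 2 x, h⟩, (F (i+1)).s 2 (F (i+1)).d⟩
  else dn i z x

noncomputable def sg (f : Fin 3) (v : V F) : V F :=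
  if f = 2 then cS v.lev v.z v.x else ⟨v.lev, v.z, (F v.lev).s f v.x⟩

theorem sg_ne {f : Fin 3} (hf : f ≠ 2) (i : ℕ) (z : Z F i) (x : (F i).B) :
    sg f (⟨i, z, x⟩ : V F) = ⟨i, z, (F i).s f x⟩ := by
  simp [sg, hf]

theorem sg_two (i : ℕ) (z : Z F i) (x : (F i).B) :
    sg 2 (⟨i, z, x⟩ : V F) = cS i z x := by
  simp [sg]

theorem cS_up (i : ℕ) (z : Z F i) (x : (F i).B) (h : (F i).up x) :
    cS i z x = ⟨i+1, Z.ch i z ⟨x, h⟩, (F (i+1)).d⟩ := by
  simp [cS, h]

theorem cS_up' (i : ℕ) (z : Z F i) (x : (F i).B) (h : (F i).up ((F i).s 2 x)) :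
    cS i z x = ⟨i+1, Z.ch i z ⟨(F i).s 2 x, h⟩, (F (i+1)).s 2 (F (i+1)).d⟩ := by
  have h' : ¬ (F i).up x := fun hx => (F i).prim x hx h
  simp [cS, h, h']

theorem cS_not (i : ℕ) (z : Z F i) (x : (F i).B) (h : ¬ (F i).port x) :
    cS i z x = dn i z x := by
  unfold Block.port at h
  push Not at h
  simp [cS, h]

theorem dport (i : ℕ) : ¬ (F i).port (F i).d := (F i).dportf

theorem dport' (i : ℕ) : ¬ (F i).port ((F i).s 2 (F i).d) := by
  rw [Block.port_s]; exact dport i

theorem dn_d (i : ℕ) (z : Z F (i+1)) : dn (i+1) z (F (i+1)).d = ⟨i, z.par, z.pu.1⟩ := by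
  simp [dn]

theorem dn_d' (i : ℕ) (z : Z F (i+1)) : dn (i+1) z ((F (i+1)).s 2 (F (i+1)).d) =
    ⟨i, z.par, (F i).s 2 z.pu.1⟩ := by
  simp [dn, Block.sne]

theorem dn_not (i : ℕ) (z : Z F i) (x : (F i).B) (h1 : x ≠ (F i).d)
    (h2 : x ≠ (F i).s 2 (F i).d) : dn i z x = ⟨i, z, (F i).s 2 x⟩ := by
  cases i with
  | zero => rfl
  | succ i => simp [dn, h1, h2]

theorem cS_invol (i : ℕ) (z : Z F i) (x : (F i).B) : sg 2 (cS i z x) = ⟨i, z, x⟩ := by
  by_cases h : (F i).up x
  · rw [cS_up _ _ _ h, sg_two, cS_not _ _ _ (dport _), dn_d]; rfl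
  · by_cases h' : (F i).up ((F i).s 2 x)
    · rw [cS_up' _ _ _ h', sg_two, cS_not _ _ _ (dport' _), dn_d', Z.pu_ch, (F i).inv]; rfl
    · have hp : ¬ (F i).port x := by unfold Block.port; tauto
      rw [cS_not _ _ _ hp]
      cases i with
      | zero =>
        show sg 2 (⟨0, z, (F 0).s 2 x⟩ : V F) = _
        rw [sg_two, cS_not _ _ _ (by rwa [Block.port_s])]
        show (⟨0, z, (F 0).s 2 ((F 0).s 2 x)⟩ : V F) = _
        rw [(F 0).inv]
      | succ i =>
        by_cases h1 : x = (F (i+1)).d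
        · rw [h1, dn_d, sg_two, cS_up _ _ _ z.pu.2]
          simp [Z.eta]
        · by_cases h2 : x = (F (i+1)).s 2 (F (i+1)).d
          · have hu : (F i).up ((F i).s 2 ((F i).s 2 z.pu.1)) := by
              rw [(F i).inv]; exact z.pu.2
            have e : (⟨(F i).s 2 ((F i).s 2 z.pu.1), hu⟩ : {x : (F i).B // (F i).up x}) = z.pu := by
              apply Subtype.ext; exact (F i).inv _ _
            rw [h2, dn_d', sg_two, cS_up' _ _ _ hu, e, Z.eta]
          · rw [dn_not _ _ _ h1 h2, sg_two, cS_not _ _ _ (by rwa [Block.port_s]), dn_not]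
            · rw [(F (i+1)).inv]
            · intro h; apply h2; rw [← h, (F (i+1)).inv]
            · intro h; apply h1
              have := congrArg ((F (i+1)).s 2) h
              rwa [(F (i+1)).inv, (F (i+1)).inv] at this

theorem sg_invol (f : Fin 3) (v : V F) : sg f (sg f v) = v := by
  obtain ⟨i, z, x⟩ := v
  by_cases hf : f = 2
  · subst hf
    rw [sg_two]; exact cS_invol i z x
  · rw [sg_ne hf, sg_ne hf, (F i).inv]

/-- level can only grow by one, through a port -/
theorem lev_step (f : Fin 3) (i : ℕ) (z : Z F i) (x : (F i).B)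
    (h : ¬ (f = 2 ∧ (F i).port x)) : (sg f (⟨i, z, x⟩ : V F)).lev ≤ i := by
  by_cases hf : f = 2
  · subst hf
    have hp : ¬ (F i).port x := fun hx => h ⟨rfl, hx⟩
    rw [sg_two, cS_not _ _ _ hp]
    cases i with
    | zero => exact le_refl _
    | succ i =>
      simp only [dn]
      split_ifs
      · exact Nat.le_succ i
      · exact Nat.le_succ i
      · exact le_refl _
  · rw [sg_ne hf]

/-- crossing a port leads to a child -/
theorem cross (i : ℕ) (z : Z F i) (x : (F i).B) (h : (F i).port x) :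
    ∃ (u : {x : (F i).B // (F i).up x}) (y : (F (i+1)).B),
      sg 2 (⟨i, z, x⟩ : V F) = ⟨i+1, Z.ch i z u, y⟩ ∧
      ((x = u.1 ∧ y = (F (i+1)).d) ∨ (x = (F i).s 2 u.1 ∧ y = (F (i+1)).s 2 (F (i+1)).d)) := by
  by_cases h1 : (F i).up x
  · exact ⟨⟨x, h1⟩, _, by rw [sg_two, cS_up _ _ _ h1], Or.inl ⟨rfl, rfl⟩⟩
  · have h2 : (F i).up ((F i).s 2 x) := by
      rcases h with h | h
      · exact absurd h h1
      · exact h
    exact ⟨⟨(F i).s 2 x, h2⟩, _, by rw [sg_two, cS_up' _ _ _ h2], Or.inr ⟨((F i).inv _ _).symm, rfl⟩⟩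

theorem sg_fix (f : Fin 3) (v : V F) : sg f v ≠ v := by
  obtain ⟨i, z, x⟩ := v
  by_cases hf : f = 2
  · subst hf
    by_cases hp : (F i).port x
    · obtain ⟨u, y, h, -⟩ := cross i z x hp
      rw [h]; intro h'
      have := congrArg V.lev h'
      simp at this
    · rw [sg_two, cS_not _ _ _ hp]
      intro h
      cases i with
      | zero =>
        have h3 : (⟨0, z, (F 0).s 2 x⟩ : V F) = ⟨0, z, x⟩ := h
        simp at h3
        exact (F 0).sne _ _ h3
      | succ i =>
        simp only [dn] at h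
        split_ifs at h
        · have := congrArg V.lev h
          simp at this
        · have := congrArg V.lev h
          simp at this
        · simp at h
          exact (F (i+1)).sne _ _ h
  · rw [sg_ne hf]
    intro h
    simp at h
    exact (F i).sne _ _ h

end

section
variable {F : ℕ → Block}

def inn (v : V F) (f : Fin 3) : V F := ⟨v.lev, v.z, (F v.lev).s f v.x⟩
def isc (v : V F) (f : Fin 3) : Prop := f = 2 ∧ (F v.lev).port v.x

noncomputable def nx (v : V F) (f : Fin 3) : V F := if isc v f then sg 2 v else inn v f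

def Good : Wd → V F → Fin 3 → ℕ → Prop
  | [], _, _, _ => True
  | f :: w, v, e, t => f ≠ e ∧ ((isc v f ∧ Good w (sg 2 v) 2 (F (v.lev+1)).l) ∨
      (¬ isc v f ∧ 0 < t ∧ Good w (inn v f) f (t-1)))

noncomputable def fend : Wd → V F → V F
  | [], v => v
  | f :: w, v => fend w (nx v f)

noncomputable def kap (i : ℕ) : ℝ := 1 - (1/2)^(i+1)

theorem kap_le (i : ℕ) : kap i ≤ 1 := by
  unfold kap; have : (0:ℝ) ≤ (1/2)^(i+1) := by positivity
  linarith

theorem kap_half (i : ℕ) : 1/2 ≤ kap i := by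
  unfold kap
  have : ((1:ℝ)/2)^(i+1) ≤ (1/2)^1 := pow_le_pow_of_le_one (by norm_num) (by norm_num) (by omega)
  norm_num at *
  linarith

theorem kap_step (i : ℕ) : kap i ≤ kap (i+1) * (1 - (1/2)^(i+2)) := by
  unfold kap
  have h : (0:ℝ) ≤ (1/2)^(i+1) := by positivity
  have e : ((1:ℝ)/2)^(i+2) = (1/2)^(i+1) * (1/2) := by rw [pow_succ]
  have e' : ((1:ℝ)/2)^(i+1+1) = (1/2)^(i+1) * (1/2) := by rw [pow_succ]
  rw [e]
  nlinarith [sq_nonneg (((1:ℝ)/2)^(i+1))]

def Fam (F : ℕ → Block) : Prop :=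
  ∀ i x e, ((F i).S (F i).l x e : ℝ) * 2^(i+2) ≤ 2^(F i).l

theorem fam_div (hF : Fam F) (i : ℕ) (x : (F i).B) (e : Fin 3) :
    ((F i).S (F i).l x e : ℝ) / 2^(F i).l ≤ (1/2)^(i+2) := by
  have h := hF i x e
  rw [div_le_iff₀ (by positivity)]
  have h2 : ((1:ℝ)/2)^(i+2) * 2^(i+2) = 1 := by
    rw [← mul_pow]; norm_num
  have h3 : (0:ℝ) ≤ (1/2)^(i+2) := by positivity
  calc ((F i).S (F i).l x e : ℝ) = (((F i).S (F i).l x e : ℝ) * 2^(i+2)) * (1/2)^(i+2) := by
        rw [mul_assoc, mul_comm ((2:ℝ)^(i+2)), h2, mul_one]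
    _ ≤ 2^(F i).l * (1/2)^(i+2) := mul_le_mul_of_nonneg_right h h3
    _ = _ := by rw [mul_comm]

theorem sg_cross_lev (v : V F) (h : (F v.lev).port v.x) : (sg 2 v).lev = v.lev + 1 := by
  obtain ⟨u, y, hu, -⟩ := cross v.lev v.z v.x h
  have : v = ⟨v.lev, v.z, v.x⟩ := rfl
  rw [this, hu]

theorem count (hF : Fam F) (r : ℕ) (v : V F) (e : Fin 3) (t : ℕ) :
    ∃ W : Finset Wd, (∀ w ∈ W, w.length = r ∧ Good w v e t) ∧
      (2:ℝ)^r * (kap (v.lev+1) * (1 - (F v.lev).S t v.x e / 2^t)) ≤ W.card := by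
  induction r generalizing v e t with
  | zero =>
    refine ⟨{[]}, ?_, ?_⟩
    · intro w hw
      rw [Finset.mem_singleton] at hw
      subst hw
      exact ⟨rfl, trivial⟩
    · have h1 : (0:ℝ) ≤ (F v.lev).S t v.x e / 2^t := by positivity
      have h2 := kap_le (v.lev+1)
      have h3 := kap_half (v.lev+1)
      simp only [pow_zero, one_mul, Finset.card_singleton, Nat.cast_one]
      have : kap (v.lev+1) * (1 - (F v.lev).S t v.x e / 2^t) ≤ kap (v.lev+1) * 1 := by
        apply mul_le_mul_of_nonneg_left _ (by linarith)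
        linarith
      linarith
  | succ r ih =>
    cases t with
    | zero =>
      refine ⟨∅, by simp, ?_⟩
      simp [Block.S]
    | succ t =>
      -- choose for each letter
      have key : ∀ f : Fin 3, f ≠ e → ∃ W : Finset Wd,
          (∀ w ∈ W, w.length = r ∧ Good (f :: w) v e (t+1)) ∧
          (2:ℝ)^r * (kap (v.lev+1) * (1 - ((if f = 2 ∧ (F v.lev).port v.x then 0 else
            (F v.lev).S t ((F v.lev).s f v.x) f : ℕ) : ℝ) / 2^t)) ≤ W.card := by
        intro f hf
        by_cases hc : isc v f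
        · obtain ⟨W, hW, hW2⟩ := ih (sg 2 v) 2 (F (v.lev+1)).l
          refine ⟨W, ?_, ?_⟩
          · intro w hw
            refine ⟨(hW w hw).1, hf, Or.inl ⟨hc, (hW w hw).2⟩⟩
          · have hc' : f = 2 ∧ (F v.lev).port v.x := hc
            rw [if_pos hc']
            refine le_trans ?_ hW2
            have hl := sg_cross_lev v hc.2
            have hd : ((F (sg 2 v).lev).S (F (v.lev+1)).l (sg 2 v).x 2 : ℝ) / 2^(F (v.lev+1)).l
                ≤ (1/2)^(v.lev+1+2) := by
              rw [← hl]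
              exact fam_div hF _ _ _
            have hk := kap_step (v.lev+1)
            have hk2 := kap_half (v.lev+1+1)
            apply mul_le_mul_of_nonneg_left _ (by positivity)
            simp only [Nat.cast_zero, zero_div, sub_zero, mul_one]
            refine le_trans hk ?_
            have hk' : kap ((sg 2 v).lev + 1) = kap (v.lev + 1 + 1) := by rw [hl]
            rw [hk']
            apply mul_le_mul_of_nonneg_left _ (by linarith)
            have e2 : ((1:ℝ)/2)^(v.lev + 1 + 2) = (1/2)^(v.lev + 1 + 2) := rfl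
            linarith
        · obtain ⟨W, hW, hW2⟩ := ih (inn v f) f t
          refine ⟨W, ?_, ?_⟩
          · intro w hw
            refine ⟨(hW w hw).1, hf, Or.inr ⟨hc, Nat.succ_pos _, ?_⟩⟩
            simpa using (hW w hw).2
          · have hc' : ¬ (f = 2 ∧ (F v.lev).port v.x) := hc
            rw [if_neg hc']
            exact hW2
      choose! W hW1 hW2 using key
      refine ⟨(Finset.univ.filter (fun f => f ≠ e)).biUnion
        (fun f => (W f).image (fun w => f :: w)), ?_, ?_⟩
      · intro w hw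
        rw [Finset.mem_biUnion] at hw
        obtain ⟨f, hf, hw⟩ := hw
        rw [Finset.mem_image] at hw
        obtain ⟨w', hw', rfl⟩ := hw
        have hf' : f ≠ e := (Finset.mem_filter.1 hf).2
        have := hW1 f hf' w' hw'
        exact ⟨by simp [this.1], this.2⟩
      · rw [Finset.card_biUnion]
        · have hcard : ∀ f, ((W f).image (fun w => f :: w)).card = (W f).card := by
            intro f
            apply Finset.card_image_of_injective
            intro a b hab
            simpa using hab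
          simp only [hcard]
          push_cast
          calc (2:ℝ)^(r+1) * (kap (v.lev+1) * (1 - (F v.lev).S (t+1) v.x e / 2^(t+1)))
              = ∑ f ∈ Finset.univ.filter (fun f => f ≠ e),
                (2:ℝ)^r * (kap (v.lev+1) * (1 - ((if f = 2 ∧ (F v.lev).port v.x then 0 else
            (F v.lev).S t ((F v.lev).s f v.x) f : ℕ) : ℝ) / 2^t)) := by
                rw [← Finset.mul_sum, ← Finset.mul_sum, Finset.sum_sub_distrib, ← Finset.sum_div,
                  Finset.sum_const, Block.card_ne]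
                simp only [Block.S]
                push_cast
                rw [pow_succ, pow_succ]
                field_simp
                simp only [nsmul_eq_mul, Nat.cast_ofNat, mul_one]
                ring
            _ ≤ _ := by
                apply Finset.sum_le_sum
                intro f hf
                exact hW2 f (Finset.mem_filter.1 hf).2
        · intro f _ g _ hfg
          rw [Function.onFun, Finset.disjoint_left]
          intro w hw hw'
          rw [Finset.mem_image] at hw hw'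
          obtain ⟨a, _, rfl⟩ := hw
          obtain ⟨b, _, hb⟩ := hw'
          simp at hb
          exact hfg hb.1.symm

end

section
variable {F : ℕ → Block}

def parA : (Σ i, Z F i) → (Σ i, Z F i)
  | ⟨0, z⟩ => ⟨0, z⟩
  | ⟨i+1, z⟩ => ⟨i, z.par⟩

def blk (v : V F) : Σ i, Z F i := ⟨v.lev, v.z⟩

theorem anc (w : Wd) (v : V F) : ∃ n, parA^[n] (blk (fend w v)) = blk v ∧
    (fend w v).lev = v.lev + n := by
  induction w generalizing v with
  | nil => exact ⟨0, rfl, rfl⟩
  | cons f w ih =>
    obtain ⟨n, h1, h2⟩ := ih (nx v f)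
    by_cases hc : isc v f
    · obtain ⟨u, y, hu, -⟩ := cross v.lev v.z v.x hc.2
      have e : nx v f = ⟨v.lev + 1, Z.ch v.lev v.z u, y⟩ := by
        unfold nx; rw [if_pos hc]; exact hu
      rw [e] at h1 h2
      refine ⟨n+1, ?_, ?_⟩
      · rw [Function.iterate_succ_apply']
        show parA (parA^[n] (blk (fend w (nx v f)))) = _
        rw [e, h1]
        rfl
      · show (fend w (nx v f)).lev = _
        rw [e, h2]; simp; ring
    · have e : nx v f = inn v f := by unfold nx; rw [if_neg hc]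
      rw [e] at h1 h2
      refine ⟨n, ?_, ?_⟩
      · show parA^[n] (blk (fend w (nx v f))) = _
        rw [e, h1]; rfl
      · show (fend w (nx v f)).lev = _
        rw [e, h2]; rfl

def Stay (b : Block) : b.B → Wd → Prop
  | _, [] => True
  | x, f :: w => ¬ (f = 2 ∧ b.port x) ∧ Stay b (b.s f x) w

theorem stay_two (b : Block) (x : b.B) (w : Wd) (h : Stay b x (w ++ [2])) :
    ¬ b.port (run b.s x w) := by
  induction w generalizing x with
  | nil => intro hp; exact h.1 ⟨rfl, hp⟩
  | cons f w ih => exact ih _ h.2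

theorem dec (w : Wd) (i : ℕ) (z : Z F i) (x : (F i).B) (e : Fin 3) (t : ℕ)
    (h : Good w (⟨i, z, x⟩ : V F) e t) :
    (w.length ≤ t ∧ Red (e :: w) ∧ Stay (F i) x w ∧
      fend w (⟨i, z, x⟩ : V F) = ⟨i, z, run (F i).s x w⟩) ∨
    (∃ v₁ w₂, w = v₁ ++ 2 :: w₂ ∧ v₁.length ≤ t ∧ Red (e :: v₁ ++ [2]) ∧ Stay (F i) x v₁ ∧
      (F i).port (run (F i).s x v₁) ∧
      Good w₂ (sg 2 (⟨i, z, run (F i).s x v₁⟩ : V F)) 2 (F (i+1)).l ∧
      fend w (⟨i, z, x⟩ : V F) = fend w₂ (sg 2 (⟨i, z, run (F i).s x v₁⟩ : V F))) := by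
  induction w generalizing x e t with
  | nil => exact Or.inl ⟨Nat.zero_le _, red_single e, trivial, rfl⟩
  | cons f w ih =>
    obtain ⟨hfe, h⟩ := h
    rcases h with ⟨hc, h⟩ | ⟨hc, ht, h⟩
    · right
      have hf : f = 2 := hc.1
      subst hf
      refine ⟨[], w, rfl, Nat.zero_le _, red_cons_cons.2 ⟨hfe.symm, red_single _⟩, trivial, hc.2,
        h, ?_⟩
      show fend w (nx _ _) = _
      unfold nx
      rw [if_pos hc]; rfl
    · have e1 : nx (⟨i, z, x⟩ : V F) f = ⟨i, z, (F i).s f x⟩ := by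
        unfold nx; rw [if_neg hc]; rfl
      have e2 : fend (f :: w) (⟨i, z, x⟩ : V F) = fend w (⟨i, z, (F i).s f x⟩ : V F) := by
        show fend w (nx _ _) = _
        rw [e1]
      rcases ih ((F i).s f x) f (t-1) h with ⟨a, b, c, d⟩ | ⟨v₁, w₂, a, b, c, d, p, g, k⟩
      · left
        refine ⟨?_, red_cons_cons.2 ⟨hfe.symm, b⟩, ⟨hc, c⟩, ?_⟩
        · simp; omega
        · rw [e2, d]; rfl
      · right
        refine ⟨f :: v₁, w₂, by rw [a]; rfl, ?_, red_cons_cons.2 ⟨hfe.symm, c⟩, ⟨hc, d⟩, p, g, ?_⟩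
        · simp; omega
        · rw [e2, k]; rfl

theorem uniq (n : ℕ) : ∀ (w w' : Wd) (i : ℕ) (z : Z F i) (x : (F i).B) (e : Fin 3) (t : ℕ),
    w.length ≤ n → t ≤ (F i).l → Good w (⟨i, z, x⟩ : V F) e t → Good w' (⟨i, z, x⟩ : V F) e t →
    fend w (⟨i, z, x⟩ : V F) = fend w' (⟨i, z, x⟩ : V F) → w = w' := by
  induction n with
  | zero =>
    intro w w' i z x e t hn ht h h' he
    have hw : w = [] := List.length_eq_zero_iff.1 (Nat.le_zero.1 hn)
    subst hw
    rcases dec _ i z x e t h' with ⟨a, b, c, d⟩ | ⟨v₁, w₂, a, b, c, d, p, g, k⟩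
    · rw [d] at he
      simp only [fend, V.mk.injEq, heq_eq_eq, true_and] at he
      exact (F i).girth x [] w' red_nil (red_tail b) (by simp) (by omega) (by simpa [run] using he)
    · exfalso
      obtain ⟨m, _, h2⟩ := anc w₂ (sg 2 (⟨i, z, run (F i).s x v₁⟩ : V F))
      rw [← k, ← he, sg_cross_lev _ p] at h2
      simp [fend] at h2
      omega
  | succ n ih =>
    intro w w' i z x e t hn ht h h' he
    rcases dec _ i z x e t h with ⟨a, b, c, d⟩ | ⟨v₁, w₂, a, b, c, d, p, g, k⟩
    · rcases dec _ i z x e t h' with ⟨a', b', c', d'⟩ | ⟨v₁', w₂', a', b', c', d', p', g', k'⟩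
      · rw [d, d'] at he
        simp only [V.mk.injEq, heq_eq_eq, true_and] at he
        exact (F i).girth x w w' (red_tail b) (red_tail b') (by omega) (by omega) he
      · exfalso
        obtain ⟨m, _, h2⟩ := anc w₂' (sg 2 (⟨i, z, run (F i).s x v₁'⟩ : V F))
        rw [← k', ← he, sg_cross_lev _ p', d] at h2
        simp at h2
        omega
    · rcases dec _ i z x e t h' with ⟨a', b', c', d'⟩ | ⟨v₁', w₂', a', b', c', d', p', g', k'⟩
      · exfalso
        obtain ⟨m, _, h2⟩ := anc w₂ (sg 2 (⟨i, z, run (F i).s x v₁⟩ : V F))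
        rw [← k, he, sg_cross_lev _ p, d'] at h2
        simp at h2
        omega
      · -- both cross
        obtain ⟨m, h1, h2⟩ := anc w₂ (sg 2 (⟨i, z, run (F i).s x v₁⟩ : V F))
        obtain ⟨m', h1', h2'⟩ := anc w₂' (sg 2 (⟨i, z, run (F i).s x v₁'⟩ : V F))
        obtain ⟨u, y, hu, hy⟩ := cross i z _ p
        obtain ⟨u', y', hu', hy'⟩ := cross i z _ p'
        rw [k, k'] at he
        have hm : m = m' := by
          rw [sg_cross_lev _ p, he] at h2
          rw [sg_cross_lev _ p'] at h2'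
          have h3 := h2.symm.trans h2'
          simp at h3
          exact h3
        subst hm
        rw [he, h1'] at h1
        rw [hu, hu'] at h1
        have huu : u = u' := by
          simp only [blk, Sigma.mk.injEq, heq_eq_eq, true_and] at h1
          have := congrArg Z.pu h1
          exact this.symm
        subst huu
        have r1 : Red v₁ := red_append_left (red_tail c)
        have r1' : Red v₁' := red_append_left (red_tail c')
        rcases hy with ⟨hx, hy⟩ | ⟨hx, hy⟩ <;> rcases hy' with ⟨hx', hy'⟩ | ⟨hx', hy'⟩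
        · have hv := (F i).girth x v₁ v₁' r1 r1' (by omega) (by omega) (hx.trans hx'.symm)
          subst hv
          have e3 : w₂ = w₂' := by
            rw [hu] at g g' he
            refine ih w₂ w₂' (i+1) _ _ 2 _ ?_ le_rfl g g' he
            rw [a] at hn; simp at hn; omega
          rw [a, a', e3]
        · exfalso
          have e4 : run (F i).s x v₁' = run (F i).s x (v₁ ++ [2]) := by
            rw [run_append, hx, hx']; rfl
          have hv := (F i).girth x v₁' (v₁ ++ [2]) r1'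
            (red_tail (show Red (e :: (v₁ ++ [2])) from c)) (by omega) (by simp; omega) e4
          rw [hv] at d'
          exact stay_two _ _ _ d' p
        · exfalso
          have e4 : run (F i).s x v₁ = run (F i).s x (v₁' ++ [2]) := by
            rw [run_append, hx, hx']; rfl
          have hv := (F i).girth x v₁ (v₁' ++ [2]) r1
            (red_tail (show Red (e :: (v₁' ++ [2])) from c')) (by omega) (by simp; omega) e4
          rw [hv] at d
          exact stay_two _ _ _ d p'
        · have hv := (F i).girth x v₁ v₁' r1 r1' (by omega) (by omega) (hx.trans hx'.symm)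
          subst hv
          have e3 : w₂ = w₂' := by
            rw [hu] at g g' he
            refine ih w₂ w₂' (i+1) _ _ 2 _ ?_ le_rfl g g' he
            rw [a] at hn; simp at hn; omega
          rw [a, a', e3]

end

section
variable {F : ℕ → Block}

def Safe (b : Block) (x : b.B) (e : Fin 3) (t : ℕ) : Prop :=
  ∀ w : Wd, w.length < t → Red (e :: w ++ [2]) → run b.s x w ≠ b.d ∧ run b.s x w ≠ b.s 2 b.d

theorem safe_step (b : Block) (x : b.B) (e f : Fin 3) (t : ℕ) (h : Safe b x e t) (hf : f ≠ e)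
    : Safe b (b.s f x) f (t-1) := by
  intro w hw hr
  exact h (f :: w) (by simp; omega) (red_cons_cons.2 ⟨hf.symm, hr⟩)

theorem safe_arr (b : Block) (x : b.B) (h : x = b.d ∨ x = b.s 2 b.d) : Safe b x 2 b.l := by
  intro w hw hr
  have hr1 : Red w := red_append_left (red_tail (show Red (2 :: (w ++ [2])) from hr))
  have hw0 : w ≠ [] := by
    rintro rfl
    exact (red_cons_cons.1 hr).1 rfl
  have hw2 : w ≠ [2] := by
    rintro rfl
    exact (red_cons_cons.1 hr).1 rfl
  have k1 : run b.s x w ≠ x := fun he => hw0 (b.girth x w [] hr1 red_nil (by omega) (by simp) he)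
  have k2 : run b.s x w ≠ b.s 2 x := fun he =>
    hw2 (b.girth x w [2] hr1 (red_single 2) (by omega) (by simp) he)
  rcases h with h | h
  · rw [h] at k1 k2 ⊢
    exact ⟨k1, k2⟩
  · rw [h] at k1 k2 ⊢
    rw [b.inv] at k2
    exact ⟨k2, k1⟩

theorem act_eq (w : Wd) : ∀ (i : ℕ) (z : Z F i) (x : (F i).B) (e : Fin 3) (t : ℕ),
    Safe (F i) x e t → Good w (⟨i, z, x⟩ : V F) e t →
    run sg (⟨i, z, x⟩ : V F) w = fend w (⟨i, z, x⟩ : V F) := by
  induction w with
  | nil => intro i z x e t _ _; rfl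
  | cons f w ih =>
    intro i z x e t hs h
    obtain ⟨hfe, h⟩ := h
    rcases h with ⟨hc, h⟩ | ⟨hc, ht, h⟩
    · have e1 : nx (⟨i, z, x⟩ : V F) f = sg 2 (⟨i, z, x⟩ : V F) := by
        unfold nx; rw [if_pos hc]
      show run sg (sg f _) w = fend w (nx _ _)
      rw [e1, hc.1]
      obtain ⟨u, y, hu, hy⟩ := cross i z x hc.2
      rw [hu] at h ⊢
      refine ih (i+1) _ _ 2 _ (safe_arr _ _ ?_) h
      rcases hy with ⟨_, hy⟩ | ⟨_, hy⟩
      · exact Or.inl hy
      · exact Or.inr hy
    · have e1 : nx (⟨i, z, x⟩ : V F) f = ⟨i, z, (F i).s f x⟩ := by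
        unfold nx; rw [if_neg hc]; rfl
      have e2 : sg f (⟨i, z, x⟩ : V F) = ⟨i, z, (F i).s f x⟩ := by
        by_cases hf : f = 2
        · subst hf
          have hp : ¬ (F i).port x := fun hp => hc ⟨rfl, hp⟩
          have hd : x ≠ (F i).d ∧ x ≠ (F i).s 2 (F i).d :=
            hs [] ht (red_cons_cons.2 ⟨hfe.symm, red_single _⟩)
          rw [sg_two, cS_not _ _ _ hp, dn_not _ _ _ hd.1 hd.2]
        · exact sg_ne hf i z x
      show run sg (sg f _) w = fend w (nx _ _)
      rw [e1, e2]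
      exact ih i z _ f (t-1) (safe_step _ _ _ _ _ hs hfe) h

theorem safe_start (b : Block) (x : b.B) : Safe b (b.s 0 x) 0 b.l ∨ Safe b (b.s 1 x) 1 b.l := by
  by_contra hcon
  push Not at hcon
  obtain ⟨h0, h1⟩ := hcon
  unfold Safe at h0 h1
  push Not at h0 h1
  obtain ⟨w0, hw0, hr0, hd0⟩ := h0
  obtain ⟨w1, hw1, hr1, hd1⟩ := h1
  have hd0' : run b.s x (0 :: w0) = b.d ∨ run b.s x (0 :: w0) = b.s 2 b.d := by
    by_cases h : run b.s (b.s 0 x) w0 = b.d
    · exact Or.inl h
    · exact Or.inr (hd0 h)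
  have hd1' : run b.s x (1 :: w1) = b.d ∨ run b.s x (1 :: w1) = b.s 2 b.d := by
    by_cases h : run b.s (b.s 1 x) w1 = b.d
    · exact Or.inl h
    · exact Or.inr (hd1 h)
  have same : ∀ q : b.B, run b.s x (0 :: w0) = q → run b.s x (1 :: w1) = q → False := by
    intro q a c
    have := b.girth x (0 :: w0) (1 :: w1) (red_append_left hr0) (red_append_left hr1)
      (by simp; omega) (by simp; omega) (a.trans c.symm)
    simp at this
  have diff : ∀ q : b.B, run b.s x (0 :: w0) = q → run b.s x (1 :: w1) = b.s 2 q → False := by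
    intro q a c
    have e : run b.s x (1 :: w1) = run b.s x ((0 :: w0) ++ [2]) := by
      rw [run_append, a, c]; rfl
    have := b.girth x (1 :: w1) ((0 :: w0) ++ [2]) (red_append_left hr1) hr0
      (by simp; omega) (by simp; omega) e
    simp at this
  rcases hd0' with a | a <;> rcases hd1' with c | c
  · exact same _ a c
  · exact diff _ a c
  · exact diff _ a (by rw [c, b.inv])
  · exact same _ a c

/-- lower bound for the number of endpoints of words of length `r+1` -/
theorem lower (hF : Fam F) (r : ℕ) (v : V F) :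
    ∃ W : Finset Wd, (∀ w ∈ W, w.length = r + 1) ∧
      (∀ w ∈ W, ∀ w' ∈ W, run sg v w = run sg v w' → w = w') ∧
      (2:ℝ)^r / 2 ≤ W.card := by
  obtain ⟨i, z, x⟩ := v
  have key : ∀ f : Fin 3, f ≠ 2 → Safe (F i) ((F i).s f x) f (F i).l →
      ∃ W : Finset Wd, (∀ w ∈ W, w.length = r + 1) ∧
      (∀ w ∈ W, ∀ w' ∈ W, run sg (⟨i, z, x⟩ : V F) w = run sg (⟨i, z, x⟩ : V F) w' → w = w') ∧
      (2:ℝ)^r / 2 ≤ W.card := by
    intro f hf hs
    obtain ⟨W, hW, hc⟩ := count hF r (⟨i, z, (F i).s f x⟩ : V F) f (F i).l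
    refine ⟨W.image (fun w => f :: w), ?_, ?_, ?_⟩
    · intro w hw
      obtain ⟨w', hw', rfl⟩ := Finset.mem_image.1 hw
      simp [(hW w' hw').1]
    · intro a ha b hb hab
      obtain ⟨a', ha', rfl⟩ := Finset.mem_image.1 ha
      obtain ⟨b', hb', rfl⟩ := Finset.mem_image.1 hb
      simp only [run] at hab
      rw [sg_ne hf, act_eq a' i z _ f _ hs (hW a' ha').2, act_eq b' i z _ f _ hs (hW b' hb').2] at hab
      rw [uniq _ a' b' i z _ f _ le_rfl le_rfl (hW a' ha').2 (hW b' hb').2 hab]
    · rw [Finset.card_image_of_injective]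
      · refine le_trans ?_ hc
        have h1 := fam_div hF i ((F i).s f x) f
        have h2 := kap_step i
        have h3 := kap_half i
        have h4 := kap_half (i+1)
        have h5 : kap (i+1) * (1 - (1/2)^(i+2)) ≤
            kap (i+1) * (1 - ((F i).S (F i).l ((F i).s f x) f : ℝ) / 2^(F i).l) := by
          apply mul_le_mul_of_nonneg_left _ (by linarith)
          linarith
        rw [div_eq_mul_one_div]
        apply mul_le_mul_of_nonneg_left _ (by positivity)
        show (1:ℝ)/2 ≤ kap (i+1) * (1 - ((F i).S (F i).l ((F i).s f x) f : ℝ) / 2^(F i).l)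
        linarith
      · intro a b hab
        simpa using hab
  rcases safe_start (F i) x with h | h
  · exact key 0 (by decide) h
  · exact key 1 (by decide) h

end

section
variable {X : Type} (τ : Fin 3 → X → X)

/-- the graph with an edge from every `v` to `τ f v` -/
def gr (hinv : ∀ f x, τ f (τ f x) = x) (hne : ∀ f x, τ f x ≠ x) : SimpleGraph X where
  Adj v w := ∃ f, τ f v = w
  symm := ⟨by
    rintro v w ⟨f, rfl⟩
    exact ⟨f, hinv f v⟩⟩
  loopless := ⟨by
    rintro v ⟨f, h⟩
    exact hne f v h⟩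

noncomputable def ext : ℕ → X → Fin 3 → Finset X
  | 0, v, _ => {v}
  | r+1, v, e => (Finset.univ.filter (fun f => f ≠ e)).biUnion (fun f => ext r (τ f v) f)

theorem ext_card (r : ℕ) (v : X) (e : Fin 3) : (ext τ r v e).card ≤ 2^r := by
  induction r generalizing v e with
  | zero => simp [ext]
  | succ r ih =>
    simp only [ext]
    calc _ ≤ ∑ f ∈ Finset.univ.filter (fun f => f ≠ e), (ext τ r (τ f v) f).card :=
          Finset.card_biUnion_le
      _ ≤ ∑ f ∈ Finset.univ.filter (fun f => f ≠ e), 2^r := Finset.sum_le_sum (fun f _ => ih _ _)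
      _ = 2^(r+1) := by
          rw [Finset.sum_const, Block.card_ne]; simp [pow_succ, mul_comm]

theorem mem_ext (w : Wd) (v : X) (e : Fin 3) (h : Red (e :: w)) :
    run τ v w ∈ ext τ w.length v e := by
  induction w generalizing v e with
  | nil => simp [ext, run]
  | cons f w ih =>
    have h' := red_cons_cons.1 h
    simp only [ext, List.length_cons, run]
    rw [Finset.mem_biUnion]
    exact ⟨f, by simp [h'.1.symm], ih _ _ h'.2⟩

noncomputable def allb (r : ℕ) (v : X) : Finset X :=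
  {v} ∪ (Finset.range r).biUnion (fun n => Finset.univ.biUnion (fun f => ext τ n (τ f v) f))

theorem mem_allb (r : ℕ) (v : X) (w : Wd) (h : Red w) (hr : w.length ≤ r) :
    run τ v w ∈ allb τ r v := by
  unfold allb
  cases w with
  | nil => simp [run]
  | cons f w =>
    rw [Finset.mem_union]
    right
    rw [Finset.mem_biUnion]
    refine ⟨w.length, ?_, ?_⟩
    · simp at hr ⊢; omega
    · rw [Finset.mem_biUnion]
      exact ⟨f, Finset.mem_univ _, mem_ext τ w _ _ h⟩

theorem allb_card (r : ℕ) (v : X) : (allb τ r v).card ≤ 3 * 2^r := by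
  unfold allb
  have h1 : ((Finset.range r).biUnion (fun n => Finset.univ.biUnion
      (fun f => ext τ n (τ f v) f))).card ≤ ∑ n ∈ Finset.range r, 3 * 2^n := by
    refine le_trans Finset.card_biUnion_le (Finset.sum_le_sum ?_)
    intro n _
    refine le_trans Finset.card_biUnion_le ?_
    calc _ ≤ ∑ f : Fin 3, 2^n := Finset.sum_le_sum (fun f _ => ext_card τ _ _ _)
      _ = 3 * 2^n := by simp
  have h2 : ∑ n ∈ Finset.range r, 3 * 2^n + 1 ≤ 3 * 2^r := by
    have : ∀ r : ℕ, ∑ n ∈ Finset.range r, 3 * 2^n + 3 = 3 * 2^r := by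
      intro r
      induction r with
      | zero => simp
      | succ r ih => rw [Finset.sum_range_succ, pow_succ]; omega
    have := this r
    omega
  have h3 := Finset.card_union_le {v} ((Finset.range r).biUnion (fun n => Finset.univ.biUnion
      (fun f => ext τ n (τ f v) f)))
  rw [Finset.card_singleton] at h3
  omega

variable {τ} {hinv : ∀ f x, τ f (τ f x) = x} {hne : ∀ f x, τ f x ≠ x}

theorem walk_word {v u : X} (p : (gr τ hinv hne).Walk v u) :
    ∃ w, Red w ∧ w.length ≤ p.length ∧ run τ v w = u := by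
  induction p with
  | nil => exact ⟨[], red_nil, le_rfl, rfl⟩
  | @cons v v1 u h p ih =>
    obtain ⟨w, h1, h2, h3⟩ := ih
    have hl : (SimpleGraph.Walk.cons h p).length = p.length + 1 := rfl
    rw [hl]
    obtain ⟨f, hf⟩ := h
    cases w with
    | nil => exact ⟨[f], red_single f, by simp, by rw [← h3, ← hf]; rfl⟩
    | cons g w =>
      by_cases hfg : f = g
      · subst hfg
        refine ⟨w, red_tail h1, ?_, ?_⟩
        · simp at h2 ⊢; omega
        · rw [← h3]
          simp only [run]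
          rw [← hf, hinv]
      · refine ⟨f :: g :: w, red_cons_cons.2 ⟨hfg, h1⟩, ?_, ?_⟩
        · simp at h2 ⊢; omega
        · rw [← h3, ← hf]; rfl

theorem word_walk (w : Wd) (v : X) :
    ∃ p : (gr τ hinv hne).Walk v (run τ v w), p.length = w.length := by
  induction w generalizing v with
  | nil => exact ⟨SimpleGraph.Walk.nil, rfl⟩
  | cons f w ih =>
    obtain ⟨p, hp⟩ := ih (τ f v)
    refine ⟨SimpleGraph.Walk.cons (⟨f, rfl⟩ : (gr τ hinv hne).Adj v (τ f v)) p, ?_⟩
    show p.length + 1 = w.length + 1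
    rw [hp]

theorem ball_sub (hc : (gr τ hinv hne).Connected) (v : X) (r : ℕ) :
    {u | (gr τ hinv hne).dist v u ≤ r} ⊆ (allb τ r v : Set X) := by
  intro u hu
  obtain ⟨p, hp⟩ := hc.exists_walk_length_eq_dist v u
  obtain ⟨w, h1, h2, h3⟩ := walk_word p
  rw [← h3]
  exact mem_allb τ r v w h1 (by rw [hp] at h2; exact h2.trans hu)

theorem ball_fin (hc : (gr τ hinv hne).Connected) (v : X) (r : ℕ) :
    {u | (gr τ hinv hne).dist v u ≤ r}.Finite :=
  (Finset.finite_toSet _).subset (ball_sub hc v r)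

theorem ball_upper (hc : (gr τ hinv hne).Connected) (v : X) (r : ℕ) :
    {u | (gr τ hinv hne).dist v u ≤ r}.ncard ≤ 3 * 2^r := by
  refine le_trans (Set.ncard_le_ncard (ball_sub hc v r) (Finset.finite_toSet _)) ?_
  rw [Set.ncard_coe_finset]
  exact allb_card τ r v

theorem ball_lower (hc : (gr τ hinv hne).Connected) (v : X) (r : ℕ) (W : Finset Wd)
    (h1 : ∀ w ∈ W, w.length ≤ r)
    (h2 : ∀ w ∈ W, ∀ w' ∈ W, run τ v w = run τ v w' → w = w') :
    W.card ≤ {u | (gr τ hinv hne).dist v u ≤ r}.ncard := by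
  have h3 : (W.image (run τ v)).card = W.card :=
    Finset.card_image_of_injOn (fun a ha b hb hab => h2 a ha b hb hab)
  rw [← h3, ← Set.ncard_coe_finset]
  apply Set.ncard_le_ncard _ (ball_fin hc v r)
  intro u hu
  rw [Finset.mem_coe, Finset.mem_image] at hu
  obtain ⟨w, hw, rfl⟩ := hu
  obtain ⟨p, hp⟩ := word_walk (hinv := hinv) (hne := hne) w v
  have := SimpleGraph.dist_le p
  show (gr τ hinv hne).dist v (run τ v w) ≤ r
  exact this.trans (by rw [hp]; exact h1 w hw)

end

section
variable {F : ℕ → Block}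

def rt (F : ℕ → Block) : V F := ⟨0, Z.root, (F 0).d⟩

def OV (F : ℕ → Block) : Type := {v : V F // ∃ w, run sg (rt F) w = v}

noncomputable def sgo (f : Fin 3) (v : OV F) : OV F :=
  ⟨sg f v.1, by
    obtain ⟨w, hw⟩ := v.2
    exact ⟨w ++ [f], by rw [run_append, hw]; rfl⟩⟩

theorem sgo_inv (f : Fin 3) (v : OV F) : sgo f (sgo f v) = v :=
  Subtype.ext (sg_invol f v.1)

theorem sgo_ne (f : Fin 3) (v : OV F) : sgo f v ≠ v := fun h =>
  sg_fix f v.1 (congrArg Subtype.val h)

theorem run_sgo (w : Wd) (v : OV F) : (run sgo v w).1 = run sg v.1 w := by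
  induction w generalizing v with
  | nil => rfl
  | cons f w ih => exact ih _

noncomputable def GG (F : ℕ → Block) : SimpleGraph (OV F) := gr sgo sgo_inv sgo_ne

theorem GG_conn : (GG F).Connected := by
  have h : ∀ v : OV F, (GG F).Reachable ⟨rt F, [], rfl⟩ v := by
    rintro ⟨v, w, hw⟩
    have : run sgo (⟨rt F, [], rfl⟩ : OV F) w = ⟨v, w, hw⟩ := Subtype.ext ((run_sgo w _).trans hw)
    rw [← this]
    obtain ⟨p, -⟩ := word_walk (hinv := sgo_inv) (hne := sgo_ne) w (⟨rt F, [], rfl⟩ : OV F)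
    exact ⟨p⟩
  have : Nonempty (OV F) := ⟨⟨rt F, [], rfl⟩⟩
  exact ⟨fun a b => (h a).symm.trans (h b)⟩

instance (b : Block) : Finite b.B := b.fin

theorem Z_fin (i : ℕ) : Finite (Z F i) := by
  induction i with
  | zero =>
    have : Subsingleton (Z F 0) := ⟨by intro a b; cases a; cases b; rfl⟩
    infer_instance
  | succ i ih =>
    have := ih
    apply Finite.of_injective (fun z : Z F (i+1) => (z.par, z.pu))
    intro a b h
    simp only [Prod.mk.injEq] at h
    rw [← Z.eta a, ← Z.eta b, h.1, h.2]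

theorem lev_fin (m : ℕ) : {v : V F | v.lev ≤ m}.Finite := by
  have h : ∀ i, (Set.range (fun p : Z F i × (F i).B => (⟨i, p.1, p.2⟩ : V F))).Finite := by
    intro i
    have := Z_fin (F := F) i
    exact Set.finite_range _
  apply Set.Finite.subset (Set.Finite.biUnion (Set.finite_Iic m) (fun i _ => h i))
  rintro ⟨i, z, x⟩ hv
  simp only [Set.mem_iUnion]
  exact ⟨i, hv, ⟨(z, x), rfl⟩⟩

theorem levo_fin (m : ℕ) : {v : OV F | v.1.lev ≤ m}.Finite := by
  apply Set.Finite.preimage (f := fun v : OV F => v.1) (s := {v : V F | v.lev ≤ m}) _ (lev_fin m)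
  intro a _ b _ h
  exact Subtype.ext h

theorem adj_lev {a b : OV F} (h : (GG F).Adj a b) (m : ℕ) (ha : a.1.lev ≤ m) (hb : m < b.1.lev) :
    a.1.lev = m ∧ (F a.1.lev).port a.1.x ∧ b = sgo 2 a := by
  obtain ⟨f, rfl⟩ := h
  by_cases hc : f = 2 ∧ (F a.1.lev).port a.1.x
  · obtain ⟨rfl, hp⟩ := hc
    have := sg_cross_lev a.1 hp
    refine ⟨?_, hp, rfl⟩
    change m < (sg 2 a.1).lev at hb
    omega
  · exfalso
    have := lev_step f a.1.lev a.1.z a.1.x hc
    change m < (sg f a.1).lev at hb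
    have h2 : (sg f a.1).lev ≤ a.1.lev := this
    omega

/-- tube cells -/
def T (j : ℕ) (u v : V F) : Prop :=
  ∃ w : Wd, w.length = j ∧ Red (2 :: w) ∧ v = ⟨u.lev, u.z, run (F u.lev).s u.x w⟩

theorem T_inj {j j' : ℕ} {u u' v : V F} (hu : (F u.lev).port u.x) (hu' : (F u'.lev).port u'.x)
    (hj : j ≤ (F u.lev).k) (hj' : j' ≤ (F u.lev).k) (h : T j u v) (h' : T j' u' v) :
    u = u' ∧ j = j' := by
  obtain ⟨i, z, x⟩ := u
  obtain ⟨i', z', x'⟩ := u'
  obtain ⟨w, hw, hr, rfl⟩ := h
  obtain ⟨w', hw', hr', he⟩ := h'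
  simp only [V.mk.injEq] at he
  obtain ⟨hi, he⟩ := he
  subst hi
  obtain ⟨hz, he⟩ := he
  have hz' := eq_of_heq hz
  subst hz'
  have he' := eq_of_heq he
  obtain ⟨a, b⟩ := (F i).sep x x' w w' hu hu' hr hr' (by rw [hw]; exact hj) (by rw [hw']; exact hj') he'
  subst a
  exact ⟨rfl, by rw [← hw, ← hw', b]⟩

theorem T_step {j : ℕ} {u p : V F} (f : Fin 3) (hu : (F u.lev).port u.x)
    (hj : j < (F u.lev).k) (h : ∃ j' ≤ j, T j' u p) (hq : ¬ ∃ j' ≤ j, T j' u (sg f p))
    (hl : (sg f p).lev ≤ u.lev) : T (j+1) u (sg f p) := by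
  obtain ⟨i, z, x⟩ := u
  obtain ⟨j', hj', w, hw, hr, rfl⟩ := h
  have hc : ¬ (f = 2 ∧ (F i).port (run (F i).s x w)) := by
    rintro ⟨rfl, hp⟩
    have := sg_cross_lev (⟨i, z, run (F i).s x w⟩ : V F) hp
    change (sg 2 (⟨i, z, run (F i).s x w⟩ : V F)).lev ≤ i at hl
    change (sg 2 (⟨i, z, run (F i).s x w⟩ : V F)).lev = i + 1 at this
    omega
  have e : sg f (⟨i, z, run (F i).s x w⟩ : V F) = ⟨i, z, run (F i).s x (w ++ [f])⟩ := by
    rw [run_append]
    by_cases hf : f = 2
    · subst hf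
      have hp : ¬ (F i).port (run (F i).s x w) := fun hp => hc ⟨rfl, hp⟩
      have hd := (F i).sepd x w hu hr (by rw [hw]; exact (hj'.trans hj.le))
      rw [sg_two, cS_not _ _ _ hp, dn_not _ _ _ hd.1 hd.2]; rfl
    · exact sg_ne hf i z _
  rcases List.eq_nil_or_concat w with rfl | ⟨w0, g, rfl⟩
  · have hf : (2 : Fin 3) ≠ f := by
      rintro rfl
      exact hc ⟨rfl, hu⟩
    have h1 : T 1 (⟨i, z, x⟩ : V F) (sg f (⟨i, z, run (F i).s x []⟩ : V F)) :=
      ⟨[f], rfl, red_cons_cons.2 ⟨hf, red_single f⟩, e⟩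
    have hj0 : j = 0 := by
      by_contra h0
      exact hq ⟨1, by omega, h1⟩
    subst hj0
    exact h1
  · rw [List.concat_eq_append] at *
    by_cases hg : g = f
    · exfalso
      apply hq
      subst hg
      refine ⟨w0.length, ?_, w0, rfl, red_append_left (l' := [g]) hr, ?_⟩
      · simp at hw; omega
      · rw [e, run_append, run_append]
        simp only [run]
        rw [(F i).inv]
    · have hr2 : Red (2 :: ((w0 ++ [g]) ++ [f])) := by
        have : 2 :: ((w0 ++ [g]) ++ [f]) = (2 :: w0) ++ g :: [f] := by simp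
        rw [this, red_split]
        exact ⟨hr, red_cons_cons.2 ⟨hg, red_single f⟩⟩
      have h1 : T (j'+1) (⟨i, z, x⟩ : V F) (sg f (⟨i, z, run (F i).s x (w0 ++ [g])⟩ : V F)) :=
        ⟨(w0 ++ [g]) ++ [f], by rw [List.length_append, hw]; rfl, hr2, e⟩
      have hj0 : j = j' := by
        by_contra h0
        exact hq ⟨j'+1, by omega, h1⟩
      subst hj0
      exact h1

theorem reach_ind {W : Type} {K : SimpleGraph W} (Q : W → Prop) (hQ : ∀ a b, K.Adj a b → Q b)
    {x v : W} (hx : Q x) (h : K.Reachable x v) : Q v := by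
  obtain ⟨p⟩ := h
  induction p with
  | nil => exact hx
  | cons h p ih => exact ih (hQ _ _ h)

theorem core (hk : ∀ i, i ≤ (F i).k) (H : (GG F).Subgraph) (x : OV F) (hx : x ∈ H.verts) (n : ℕ) :
    ∃ S E : Finset (OV F), S.Nonempty ∧ (∀ v ∈ S, v ∈ H.verts) ∧
      (∀ a ∈ S, ∀ b, b ∉ S → H.Adj a b → a ∈ E ∧ b = sgo 2 a) ∧ E.card * (n+1) ≤ S.card := by
  obtain ⟨m, hm1, hm2⟩ : ∃ m, x.1.lev < m ∧ n ≤ m := ⟨max (x.1.lev+1) n, by omega, by omega⟩
  let HP : SimpleGraph (OV F) :=
    { Adj := fun a b => H.Adj a b ∧ a.1.lev ≤ m ∧ b.1.lev ≤ m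
      symm := ⟨fun a b h => ⟨h.1.symm, h.2.2, h.2.1⟩⟩
      loopless := ⟨fun a h => (GG F).loopless.irrefl a (H.adj_sub h.1)⟩ }
  have hfin : {v | HP.Reachable x v}.Finite := by
    apply (levo_fin (F := F) m).subset
    intro v hv
    exact reach_ind (K := HP) (fun v => v.1.lev ≤ m) (fun a b h => h.2.2) hm1.le hv
  have hmem : ∀ v, v ∈ hfin.toFinset ↔ HP.Reachable x v := by
    intro v; rw [Set.Finite.mem_toFinset]; rfl
  refine ⟨hfin.toFinset, hfin.toFinset.filter (fun v => v.1.lev = m ∧ (F v.1.lev).port v.1.x),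
    ⟨x, (hmem x).2 (SimpleGraph.Reachable.refl x)⟩, ?_, ?_, ?_⟩
  · intro v hv
    exact reach_ind (K := HP) (fun v => v ∈ H.verts) (fun a b h => h.1.snd_mem) hx ((hmem v).1 hv)
  · intro a ha b hb hab
    have hla : a.1.lev ≤ m :=
      reach_ind (K := HP) (fun v => v.1.lev ≤ m) (fun a b h => h.2.2) hm1.le ((hmem a).1 ha)
    have hlb : m < b.1.lev := by
      by_contra hcon
      apply hb
      rw [hmem]
      exact ((hmem a).1 ha).trans (SimpleGraph.Adj.reachable (⟨hab, hla, by omega⟩ : HP.Adj a b))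
    obtain ⟨h1, h2, h3⟩ := adj_lev (H.adj_sub hab) m hla hlb
    exact ⟨Finset.mem_filter.2 ⟨ha, h1, h2⟩, h3⟩
  · -- tubes
    have meet : ∀ u : OV F, HP.Reachable x u → u.1.lev = m → (F u.1.lev).port u.1.x →
        ∀ j, j ≤ m → ∃ v : OV F, HP.Reachable x v ∧ T j u.1 v.1 := by
      intro u hu hum hup j
      induction j with
      | zero => intro _; exact ⟨u, hu, [], rfl, red_single 2, rfl⟩
      | succ j ih =>
        intro hj
        obtain ⟨p⟩ := hu.symm
        have hxA : x ∉ {v : OV F | ∃ j' ≤ j, T j' u.1 v.1} := by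
          rintro ⟨j', _, w, _, _, h⟩
          have := congrArg V.lev h
          simp at this
          omega
        obtain ⟨d, hd, hd1, hd2⟩ := p.exists_boundary_dart {v : OV F | ∃ j' ≤ j, T j' u.1 v.1}
          ⟨0, Nat.zero_le _, [], rfl, red_single 2, rfl⟩ hxA
        have hr : HP.Reachable x d.snd := by
          have h1 : d.snd ∈ p.support := SimpleGraph.Walk.dart_snd_mem_support_of_mem_darts _ hd
          exact hu.trans ⟨p.takeUntil _ h1⟩
        refine ⟨d.snd, hr, ?_⟩
        have hadj : HP.Adj d.fst d.snd := d.adj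
        obtain ⟨f, hf⟩ := H.adj_sub hadj.1
        have hf1 : d.snd.1 = sg f d.fst.1 := (congrArg Subtype.val hf).symm
        rw [hf1]
        refine T_step f hup ?_ hd1 ?_ ?_
        · have := hk u.1.lev
          omega
        · rw [← hf1]; exact hd2
        · rw [← hf1, hum]; exact hadj.2.2
    choose g hg1 hg2 using meet
    have hcard : ((hfin.toFinset.filter (fun v => v.1.lev = m ∧ (F v.1.lev).port v.1.x)) ×ˢ
        Finset.range (n+1)).card ≤ hfin.toFinset.card := by
      apply Finset.card_le_card_of_injOn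
        (fun q => if h : HP.Reachable x q.1 ∧ q.1.1.lev = m ∧ (F q.1.1.lev).port q.1.1.x ∧ q.2 ≤ m
          then g q.1 h.1 h.2.1 h.2.2.1 q.2 h.2.2.2 else x)
      · rintro ⟨u, j⟩ hq
        rw [Finset.mem_coe, Finset.mem_product, Finset.mem_filter, Finset.mem_range] at hq
        have h : HP.Reachable x u ∧ u.1.lev = m ∧ (F u.1.lev).port u.1.x ∧ j ≤ m :=
          ⟨(hmem u).1 hq.1.1, hq.1.2.1, hq.1.2.2, by have := hq.2; simp only at this; omega⟩
        simp only [dif_pos h]
        rw [Finset.mem_coe, hmem]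
        exact hg1 _ _ _ _ _ _
      · rintro ⟨u, j⟩ hq ⟨u', j'⟩ hq' he
        rw [Finset.mem_coe, Finset.mem_product, Finset.mem_filter, Finset.mem_range] at hq hq'
        have h : HP.Reachable x u ∧ u.1.lev = m ∧ (F u.1.lev).port u.1.x ∧ j ≤ m :=
          ⟨(hmem u).1 hq.1.1, hq.1.2.1, hq.1.2.2, by have := hq.2; simp only at this; omega⟩
        have h' : HP.Reachable x u' ∧ u'.1.lev = m ∧ (F u'.1.lev).port u'.1.x ∧ j' ≤ m :=
          ⟨(hmem u').1 hq'.1.1, hq'.1.2.1, hq'.1.2.2, by have := hq'.2; simp only at this; omega⟩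
        simp only [dif_pos h, dif_pos h'] at he
        have t1 := hg2 u h.1 h.2.1 h.2.2.1 j h.2.2.2
        have t2 := hg2 u' h'.1 h'.2.1 h'.2.2.1 j' h'.2.2.2
        rw [← he] at t2
        have hkm := hk u.1.lev
        obtain ⟨a, b⟩ := T_inj h.2.2.1 h'.2.2.1 (by omega) (by omega) t1 t2
        rw [Prod.mk.injEq]
        exact ⟨Subtype.ext a, b⟩
    rwa [Finset.card_product, Finset.card_range] at hcard

end

section
/-! ### finite groups with three involutions and no short relations -/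

structure Trip (R : ℕ) where
  G : Type
  grp : Group G
  fin : Finite G
  t : Fin 3 → G
  sq : ∀ f, t f * t f = 1
  inj : ∀ w w' : Wd, Red w → Red w' → w.length ≤ R → w'.length ≤ R →
    (w.map t).prod = (w'.map t).prod → w = w'
  gen : ∀ a : G, ∃ w : Wd, (w.map t).prod = a

abbrev XR (R : ℕ) : Type := {w : Wd // Red w ∧ w.length ≤ R}

theorem XR_fin (R : ℕ) : Finite (XR R) := by
  have h : {w : Wd | w.length ≤ R}.Finite := List.finite_length_le (Fin 3) R
  have h2 : {w : Wd | Red w ∧ w.length ≤ R}.Finite := h.subset (fun w hw => hw.2)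
  exact h2.to_subtype

def pw (R : ℕ) (f : Fin 3) (w : Wd) : Wd :=
  if w.head? = some f then w.tail else if w.length < R then f :: w else w

theorem pw_ok (R : ℕ) (f : Fin 3) (w : Wd) (h : Red w ∧ w.length ≤ R) :
    Red (pw R f w) ∧ (pw R f w).length ≤ R := by
  unfold pw
  cases w with
  | nil =>
    by_cases hR : 0 < R
    · simp [hR]; exact ⟨red_single f, hR⟩
    · simp [hR]; exact red_nil
  | cons g w =>
    by_cases hg : g = f
    · subst hg
      simp only [List.head?_cons, if_true, List.tail_cons]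
      exact ⟨red_tail h.1, by have := h.2; simp at this; omega⟩
    · simp only [List.head?_cons, Option.some.injEq, if_neg hg]
      split_ifs with hl
      · exact ⟨red_cons_cons.2 ⟨fun e => hg e.symm, h.1⟩, hl⟩
      · exact h

theorem pw_inv (R : ℕ) (f : Fin 3) (w : Wd) (h : Red w ∧ w.length ≤ R) :
    pw R f (pw R f w) = w := by
  cases w with
  | nil =>
    by_cases hR : 0 < R
    · simp [pw, hR]
    · simp [pw, hR]
  | cons g w =>
    by_cases hg : g = f
    · subst hg
      have e : pw R g (g :: w) = w := by simp [pw]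
      rw [e]
      have hl : w.length < R := by have := h.2; simp at this; omega
      cases w with
      | nil =>
        have hl' : 0 < R := by simpa using hl
        simp only [pw, List.head?_nil, List.length_nil, if_pos hl']
        rfl
      | cons g' w =>
        have hne : ¬ (g' = g) := fun e => (red_cons_cons.1 h.1).1 e.symm
        simp only [pw, List.head?_cons, Option.some.injEq, if_neg hne, if_pos hl]
    · by_cases hl : (g :: w).length < R
      · have e : pw R f (g :: w) = f :: g :: w := by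
          simp only [pw, List.head?_cons, Option.some.injEq, if_neg hg, if_pos hl]
        rw [e]; simp [pw]
      · have e : pw R f (g :: w) = g :: w := by
          simp only [pw, List.head?_cons, Option.some.injEq, if_neg hg, if_neg hl]
        rw [e, e]

def pP (R : ℕ) (f : Fin 3) : Equiv.Perm (XR R) where
  toFun w := ⟨pw R f w.1, pw_ok R f w.1 w.2⟩
  invFun w := ⟨pw R f w.1, pw_ok R f w.1 w.2⟩
  left_inv w := Subtype.ext (pw_inv R f w.1 w.2)
  right_inv w := Subtype.ext (pw_inv R f w.1 w.2)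

theorem pP_sq (R : ℕ) (f : Fin 3) : pP R f * pP R f = 1 := by
  apply Equiv.ext; intro w; exact Subtype.ext (pw_inv R f w.1 w.2)

theorem pP_eval (R : ℕ) (w : Wd) (h : Red w) (hl : w.length ≤ R) :
    (((w.map (pP R)).prod) ⟨[], red_nil, Nat.zero_le _⟩).1 = w := by
  induction w with
  | nil => rfl
  | cons f w ih =>
    have hw : w.length < R := by simp at hl; omega
    have ih' := ih (red_tail h) hw.le
    rw [List.map_cons, List.prod_cons, Equiv.Perm.mul_apply]
    show pw R f _ = _
    rw [ih']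
    cases w with
    | nil =>
      have hl' : 0 < R := by simpa using hw
      simp only [pw, List.head?_nil, List.length_nil, if_pos hl']
      rfl
    | cons g w =>
      have hne : ¬ (g = f) := fun e => (red_cons_cons.1 h).1 e.symm
      simp only [pw, List.head?_cons, Option.some.injEq, if_neg hne, if_pos hw]

theorem rev_prod {G : Type} [Group G] (t : Fin 3 → G) (sq : ∀ f, t f * t f = 1) (w : Wd) :
    (w.reverse.map t).prod = ((w.map t).prod)⁻¹ := by
  induction w with
  | nil => simp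
  | cons f w ih =>
    rw [List.reverse_cons, List.map_append, List.prod_append, ih, List.map_cons, List.map_nil,
      List.prod_cons, List.prod_nil, mul_one, List.map_cons, List.prod_cons, mul_inv_rev]
    congr 1
    rw [eq_inv_iff_mul_eq_one]
    exact sq f

def tC (R : ℕ) (f : Fin 3) : Subgroup.closure (Set.range (pP R)) :=
  ⟨pP R f, Subgroup.subset_closure ⟨f, rfl⟩⟩

theorem tC_prod (R : ℕ) (w : Wd) : ((w.map (tC R)).prod).1 = (w.map (pP R)).prod := by
  induction w with
  | nil => rfl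
  | cons f w ih =>
    rw [List.map_cons, List.prod_cons, List.map_cons, List.prod_cons, Subgroup.coe_mul, ih]
    rfl

noncomputable def trip (R : ℕ) : Trip R where
  G := Subgroup.closure (Set.range (pP R))
  grp := inferInstance
  fin := by
    have := XR_fin R
    infer_instance
  t := tC R
  sq f := Subtype.ext (pP_sq R f)
  inj w w' h h' hl hl' he := by
    have h2 := congrArg Subtype.val he
    rw [tC_prod, tC_prod] at h2
    rw [← pP_eval R w h hl, ← pP_eval R w' h' hl', h2]
  gen a := by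
    obtain ⟨a, ha⟩ := a
    induction ha using Subgroup.closure_induction with
    | mem x hx =>
      obtain ⟨f, rfl⟩ := hx
      exact ⟨[f], by simp [tC]⟩
    | one => exact ⟨[], rfl⟩
    | mul x y hx hy ihx ihy =>
      obtain ⟨w, hw⟩ := ihx
      obtain ⟨w', hw'⟩ := ihy
      refine ⟨w ++ w', ?_⟩
      rw [List.map_append, List.prod_append, hw, hw']
      rfl
    | inv x hx ih =>
      obtain ⟨w, hw⟩ := ih
      refine ⟨w.reverse, ?_⟩
      rw [rev_prod (tC R) (fun f => Subtype.ext (pP_sq R f)), hw]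
      rfl

end

section
instance {R : ℕ} (K : Trip R) : Group K.G := K.grp
instance {R : ℕ} (K : Trip R) : Finite K.G := K.fin

def Trip.ev {R : ℕ} (K : Trip R) (w : Wd) : K.G := (w.map K.t).prod

theorem Trip.ev_nil {R : ℕ} (K : Trip R) : K.ev [] = 1 := rfl
theorem Trip.ev_cons {R : ℕ} (K : Trip R) (f : Fin 3) (w : Wd) : K.ev (f :: w) = K.t f * K.ev w := by
  simp [Trip.ev]
theorem Trip.ev_append {R : ℕ} (K : Trip R) (w w' : Wd) : K.ev (w ++ w') = K.ev w * K.ev w' := by
  simp [Trip.ev]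
theorem Trip.ev_single {R : ℕ} (K : Trip R) (f : Fin 3) : K.ev [f] = K.t f := by
  simp [Trip.ev]

theorem Trip.reduce {R : ℕ} (K : Trip R) (w : Wd) : ∃ w', Red w' ∧ K.ev w' = K.ev w := by
  induction w with
  | nil => exact ⟨[], red_nil, rfl⟩
  | cons f w ih =>
    obtain ⟨w', h1, h2⟩ := ih
    cases w' with
    | nil => exact ⟨[f], red_single f, by rw [Trip.ev_cons, Trip.ev_cons, h2]⟩
    | cons g w' =>
      by_cases hfg : f = g
      · subst hfg
        refine ⟨w', red_tail h1, ?_⟩
        rw [Trip.ev_cons, ← h2, Trip.ev_cons, ← mul_assoc, K.sq, one_mul]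
      · exact ⟨f :: g :: w', red_cons_cons.2 ⟨hfg, h1⟩, by rw [Trip.ev_cons, h2, ← Trip.ev_cons]⟩

def zz (f g : Fin 3) : ℕ → Wd
  | 0 => []
  | n+1 => f :: g :: zz f g n

theorem zz_red (f g : Fin 3) (hfg : f ≠ g) (n : ℕ) (w : Wd) (h : Red (g :: w)) :
    Red (g :: (zz f g n ++ w)) := by
  induction n with
  | zero => exact h
  | succ n ih => exact red_cons_cons.2 ⟨hfg.symm, red_cons_cons.2 ⟨hfg, ih⟩⟩

theorem zz_ev {R : ℕ} (K : Trip R) (f g : Fin 3) (n : ℕ) :
    K.ev (zz f g n) = (K.t f * K.t g)^n := by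
  induction n with
  | zero => rw [pow_zero]; rfl
  | succ n ih =>
    show K.ev (f :: g :: zz f g n) = _
    rw [Trip.ev_cons, Trip.ev_cons, ih, pow_succ', mul_assoc]

theorem Trip.start {R : ℕ} (K : Trip R) (w0 : Wd) (h : Red w0) (e : Fin 3) :
    ∃ w1, w1 ≠ [] ∧ Red (e :: w1) ∧ K.ev w1 = K.ev w0 := by
  obtain ⟨f, g, hf, hg, hfg⟩ : ∃ f g : Fin 3, f ≠ e ∧ g ≠ e ∧ f ≠ g := by
    revert e; decide
  have hpos : 0 < orderOf (K.t f * K.t g) := orderOf_pos _
  obtain ⟨n, hn⟩ := Nat.exists_eq_succ_of_ne_zero hpos.ne'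
  have h1 : K.ev (zz f g (n+1)) = 1 := by
    rw [zz_ev, ← Nat.succ_eq_add_one, ← hn, pow_orderOf_eq_one]
  have main : Red (g :: w0) → ∃ w1, w1 ≠ [] ∧ Red (e :: w1) ∧ K.ev w1 = K.ev w0 := by
    intro hr
    refine ⟨zz f g (n+1) ++ w0, by simp [zz], ?_, ?_⟩
    · exact red_cons_cons.2 ⟨hf.symm, red_cons_cons.2 ⟨hfg, zz_red f g hfg n w0 hr⟩⟩
    · rw [Trip.ev_append, h1, one_mul]
  cases w0 with
  | nil => exact main (red_single g)
  | cons x w0 =>
    by_cases hx : x = e
    · subst hx
      exact main (red_cons_cons.2 ⟨hg, h⟩)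
    · exact ⟨x :: w0, by simp, red_cons_cons.2 ⟨fun e => hx e.symm, h⟩, rfl⟩

theorem Trip.dense1 {R : ℕ} (K : Trip R) (a : K.G) (e : Fin 3) :
    ∃ w, Red (e :: w ++ [2]) ∧ (a * K.ev w = 1 ∨ a * K.ev w * K.t 2 = 1) := by
  obtain ⟨w00, h00⟩ := K.gen a⁻¹
  obtain ⟨w0, hr0, h0⟩ := K.reduce w00
  obtain ⟨w1, hne, hr1, h1⟩ := K.start w0 hr0 e
  have ha : K.ev w1 = a⁻¹ := by rw [h1, h0]; exact h00
  rcases List.eq_nil_or_concat w1 with rfl | ⟨w2, x, rfl⟩
  · exact absurd rfl hne
  · rw [List.concat_eq_append] at *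
    by_cases hx : x = 2
    · subst hx
      refine ⟨w2, hr1, Or.inr ?_⟩
      rw [Trip.ev_append, Trip.ev_single] at ha
      rw [mul_assoc, ha, mul_inv_cancel]
    · refine ⟨w2 ++ [x], ?_, Or.inl ?_⟩
      · have e2 : e :: (w2 ++ [x]) ++ [2] = (e :: w2) ++ x :: [2] := by simp
        rw [e2, red_split]
        exact ⟨hr1, red_cons_cons.2 ⟨hx, red_single 2⟩⟩
      · rw [ha, mul_inv_cancel]

theorem Trip.denseD {R : ℕ} (K : Trip R) : ∃ D : ℕ, ∀ (a : K.G) (e : Fin 3),
    ∃ w, w.length < D ∧ Red (e :: w ++ [2]) ∧ (a * K.ev w = 1 ∨ a * K.ev w * K.t 2 = 1) := by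
  choose w h1 h2 using K.dense1
  obtain ⟨M, hM⟩ := (Set.finite_range (fun p : K.G × Fin 3 => (w p.1 p.2).length)).bddAbove
  refine ⟨M+1, fun a e => ⟨w a e, ?_, h1 a e, h2 a e⟩⟩
  exact Nat.lt_succ_of_le (hM ⟨(a, e), rfl⟩)

def alt : ℕ → Wd
  | 0 => []
  | n+1 => (if n % 2 = 0 then 0 else 1) :: alt n

theorem alt_len (n : ℕ) : (alt n).length = n := by
  induction n with
  | zero => rfl
  | succ n ih => simp [alt, ih]

theorem alt_red (n : ℕ) : Red (alt n ++ [2]) := by
  induction n with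
  | zero => exact red_single 2
  | succ n ih =>
    cases n with
    | zero => exact red_cons_cons.2 ⟨by decide, red_single 2⟩
    | succ n =>
      refine red_cons_cons.2 ⟨?_, ih⟩
      rcases Nat.mod_two_eq_zero_or_one n with h | h
      · have : (n+1) % 2 = 1 := by omega
        simp [h, this]
      · have : (n+1) % 2 = 0 := by omega
        simp [h, this]

theorem run_pair {R R' : ℕ} (K : Trip R) (L : Trip R') (x : K.G × L.G) (w : Wd) :
    run (fun f (x : K.G × L.G) => (x.1 * K.t f, x.2 * L.t f)) x w =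
      (x.1 * K.ev w, x.2 * L.ev w) := by
  induction w generalizing x with
  | nil => simp [run, Trip.ev]
  | cons f w ih =>
    simp only [run]
    rw [ih, Trip.ev_cons, Trip.ev_cons, mul_assoc, mul_assoc]

theorem block_ex (k : ℕ) : ∃ D : ℕ, ∀ l : ℕ, ∃ b : Block, b.k = k ∧ b.D = D ∧ b.l = l := by
  let K := trip (k+3)
  obtain ⟨D, hD⟩ := K.denseD
  refine ⟨D, fun l => ?_⟩
  let L := trip (l+2)
  have c2 : ∀ a : K.G, a * K.t 2 = 1 → a = K.t 2 := by
    intro a h
    have := K.sq 2
    calc a = a * (K.t 2 * K.t 2) := by rw [this, mul_one]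
      _ = K.t 2 := by rw [← mul_assoc, h, one_mul]
  have v0r : Red (alt (k+2)) := red_append_left (alt_red _)
  have v0l : (alt (k+2)).length = k+2 := alt_len _
  -- evaluation of ports
  have pe : ∀ (a : K.G) (w : Wd), (a = 1 ∨ a * K.t 2 = 1) → Red (2 :: w) → w.length ≤ k →
      ∃ w', Red w' ∧ w'.length ≤ k+1 ∧ a * K.ev w = K.ev w' ∧
        ((a = 1 ∧ w' = w) ∨ (a = K.t 2 ∧ w' = 2 :: w)) := by
    intro a w ha hr hl
    rcases ha with rfl | ha
    · exact ⟨w, red_tail hr, by omega, by rw [one_mul], Or.inl ⟨rfl, rfl⟩⟩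
    · have := c2 a ha
      subst this
      exact ⟨2 :: w, hr, by simp; omega, by rw [Trip.ev_cons], Or.inr ⟨rfl, rfl⟩⟩
  refine ⟨{
    B := K.G × L.G
    fin := inferInstance
    s := fun f x => (x.1 * K.t f, x.2 * L.t f)
    inv := ?_
    up := fun x => x.1 = 1
    d := (K.ev (alt (k+2)), 1)
    k := k
    D := D
    l := l
    girth := ?_
    prim := ?_
    sep := ?_
    sepd := ?_
    dportf := ?_
    dense := ?_ }, rfl, rfl, rfl⟩
  · intro f x
    simp only [mul_assoc, K.sq, L.sq, mul_one]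
  · intro x w w' h h' hl hl' he
    rw [run_pair, run_pair] at he
    have := mul_left_cancel (congrArg Prod.snd he)
    exact L.inj w w' h h' hl hl' this
  · intro x hx hx'
    simp only at hx hx'
    rw [hx, one_mul] at hx'
    have h1 : K.ev [2] = K.ev [] := by rw [Trip.ev_single]; exact hx'
    have := K.inj [2] [] (red_single 2) red_nil (by simp) (by simp) h1
    simp at this
  · intro u u' w w' hu hu' hr hr' hl hl' he
    rw [run_pair, run_pair] at he
    have he1 := congrArg Prod.fst he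
    have he2 := congrArg Prod.snd he
    simp only at he1 he2
    obtain ⟨a, ha1, ha2, ha3, ha4⟩ := pe u.1 w hu hr hl
    obtain ⟨b, hb1, hb2, hb3, hb4⟩ := pe u'.1 w' hu' hr' hl'
    have hab : a = b := K.inj a b ha1 hb1 (by omega) (by omega) (by
      show K.ev a = K.ev b
      rw [← ha3, ← hb3, he1])
    have fin2 : w = w' → u.1 = u'.1 → u = u' ∧ w = w' := by
      rintro rfl h
      exact ⟨Prod.ext h (mul_right_cancel he2), rfl⟩
    rcases ha4 with ⟨h1, rfl⟩ | ⟨h1, rfl⟩ <;> rcases hb4 with ⟨h2, rfl⟩ | ⟨h2, rfl⟩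
    · exact fin2 hab (h1.trans h2.symm)
    · rw [hab] at hr
      exact absurd rfl (red_cons_cons.1 hr).1
    · rw [← hab] at hr'
      exact absurd rfl (red_cons_cons.1 hr').1
    · exact fin2 (by simpa using hab) (h1.trans h2.symm)
  · intro u w hu hr hl
    obtain ⟨a, ha1, ha2, ha3, ha4⟩ := pe u.1 w hu hr hl
    rw [run_pair]
    constructor
    · intro he
      have he1 := congrArg Prod.fst he
      simp only at he1
      rw [ha3] at he1
      have := K.inj a _ ha1 v0r (by omega) (by omega) he1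
      rw [this, v0l] at ha2
      omega
    · intro he
      have he1 := congrArg Prod.fst he
      simp only at he1
      rw [ha3, ← Trip.ev_single, ← Trip.ev_append] at he1
      have := K.inj a _ ha1 (alt_red _) (by omega) (by simp [v0l]) he1
      rw [this] at ha2
      simp [v0l] at ha2
  · rintro (h | h)
    · have h1 : K.ev (alt (k+2)) = K.ev [] := h
      have := K.inj _ _ v0r red_nil (by omega) (by simp) h1
      simp [alt] at this
    · have h1 : K.ev (alt (k+2) ++ [2]) = K.ev [] := by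
        rw [Trip.ev_append, Trip.ev_single]; exact h
      have := K.inj _ _ (alt_red _) red_nil (by simp [v0l]) (by simp) h1
      simp at this
  · intro y e
    obtain ⟨w, h1, h2, h3⟩ := hD y.1 e
    refine ⟨w, h1, h2, ?_⟩
    rw [run_pair]
    exact h3

theorem pow_ex (D m : ℕ) : ∃ n : ℕ, (2^D - 1)^n * 2^m ≤ 2^(D*n) := by
  have h1 : ((2^D - 1 : ℝ) / 2^D) < 1 := by
    rw [div_lt_one (by positivity)]; linarith
  have h0 : (0:ℝ) ≤ (2^D - 1 : ℝ) / 2^D := by
    apply div_nonneg _ (by positivity)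
    have : (1:ℝ) ≤ 2^D := one_le_pow₀ (by norm_num)
    linarith
  obtain ⟨n, hn⟩ := exists_pow_lt_of_lt_one (show (0:ℝ) < 1/2^m by positivity) h1
  refine ⟨n, ?_⟩
  rw [div_pow, div_lt_div_iff₀ (by positivity) (by positivity), one_mul, ← pow_mul] at hn
  have h2 : (((2^D - 1)^n * 2^m : ℕ) : ℝ) < ((2^(D*n) : ℕ) : ℝ) := by
    push_cast [Nat.one_le_two_pow]
    exact hn
  exact_mod_cast h2.le

theorem fam_ex : ∃ F : ℕ → Block, Fam F ∧ ∀ i, i ≤ (F i).k := by
  have h : ∀ i : ℕ, ∃ b : Block, b.k = i ∧ ∀ x e, ((b.S b.l x e : ℕ) : ℝ) * 2^(i+2) ≤ 2^b.l := by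
    intro i
    obtain ⟨D, hD⟩ := block_ex i
    obtain ⟨n, hn⟩ := pow_ex D (i+2)
    obtain ⟨b, h1, h2, h3⟩ := hD (D*n)
    refine ⟨b, h1, ?_⟩
    intro x e
    have h4 : b.S b.l x e ≤ (2^D - 1)^n := by
      rw [h3, ← h2]; exact b.S_Dn n x e
    have h5 : b.S b.l x e * 2^(i+2) ≤ 2^b.l := by
      rw [h3]
      calc _ = b.S b.l x e * 2^(i+2) := by rw [h3]
        _ ≤ (2^D - 1)^n * 2^(i+2) := Nat.mul_le_mul_right _ h4
        _ ≤ _ := hn
    exact_mod_cast h5
  choose F h1 h2 using h
  exact ⟨F, h2, fun i => (h1 i).ge⟩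

end


/-! ### Conclusion -/

section

variable {F : ℕ → Block}

theorem lower_nat (hF : Fam F) (v : OV F) (n : ℕ) :
    (2:ℝ)^n / 4 ≤ ({u | (GG F).dist v u ≤ n}.ncard : ℝ) := by
  cases n with
  | zero =>
    have h1 : ({v} : Set (OV F)).ncard ≤ {u | (GG F).dist v u ≤ 0}.ncard := by
      apply Set.ncard_le_ncard _ (ball_fin (hinv := sgo_inv) (hne := sgo_ne) GG_conn v 0)
      intro u hu
      rw [Set.mem_singleton_iff] at hu
      subst hu
      show (GG F).dist u u ≤ 0
      rw [SimpleGraph.dist_self]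
    rw [Set.ncard_singleton] at h1
    have h2 : (1:ℝ) ≤ ({u | (GG F).dist v u ≤ 0}.ncard : ℝ) := by exact_mod_cast h1
    rw [pow_zero]
    refine le_trans ?_ h2
    norm_num
  | succ r =>
    obtain ⟨W, h1, h2, h3⟩ := lower hF r v.1
    have h4 : W.card ≤ {u | (GG F).dist v u ≤ r + 1}.ncard := by
      apply ball_lower (hinv := sgo_inv) (hne := sgo_ne) GG_conn v (r+1) W
      · intro w hw; exact (h1 w hw).le
      · intro w hw w' hw' he
        apply h2 w hw w' hw'
        rw [← run_sgo, ← run_sgo, he]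
    have h5 : (W.card : ℝ) ≤ ({u | (GG F).dist v u ≤ r + 1}.ncard : ℝ) := by exact_mod_cast h4
    refine le_trans ?_ (h3.trans h5)
    rw [pow_succ]; linarith

theorem upper_nat (v : OV F) (n : ℕ) :
    ({u | (GG F).dist v u ≤ n}.ncard : ℝ) ≤ 3 * 2^n := by
  have := ball_upper (hinv := sgo_inv) (hne := sgo_ne) (GG_conn (F := F)) v n
  exact_mod_cast this

theorem ball_eq (v : OV F) (r : ℝ) (hr : 0 < r) :
    ball (GG F) v r = {u | (GG F).dist v u ≤ ⌊r⌋₊} := by
  ext u
  constructor
  · rintro ⟨_, h⟩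
    exact Nat.le_floor h
  · intro h
    refine ⟨GG_conn.preconnected v u, ?_⟩
    have h1 : (GG F).dist v u ≤ ⌊r⌋₊ := h
    exact (Nat.cast_le.2 h1).trans (Nat.floor_le hr.le)

theorem GG_uniform (hF : Fam F) : UniformVolumeGrowth (GG F) := by
  refine ⟨12, by norm_num, ?_⟩
  intro u v r hr
  rw [ball_eq v r hr, ball_eq u r hr]
  have h1 := upper_nat v ⌊r⌋₊
  have h2 := lower_nat hF u ⌊r⌋₊
  linarith

theorem GG_exp (hF : Fam F) : ExponentialGrowth (GG F) := by
  refine ⟨2, 1/16, by norm_num, by norm_num, ?_⟩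
  intro v r hr
  rw [ball_eq v r hr]
  have h2 := lower_nat hF v ⌊r⌋₊
  have h3 : (2:ℝ)^r ≤ 2^(⌊r⌋₊ + 1) := by
    rw [← Real.rpow_natCast]
    apply Real.rpow_le_rpow_of_exponent_le (by norm_num)
    push_cast
    exact (Nat.lt_floor_add_one r).le
  rw [pow_succ] at h3
  have h4 : (0:ℝ) < 2^⌊r⌋₊ := by positivity
  linarith

theorem GG_inf (hF : Fam F) : Infinite (OV F) := by
  by_contra hcon
  rw [not_infinite_iff_finite] at hcon
  obtain ⟨n, hn⟩ := pow_unbounded_of_one_lt (4 * (Nat.card (OV F) : ℝ)) (one_lt_two)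
  have v : OV F := ⟨rt F, [], rfl⟩
  have h1 := lower_nat hF v n
  have h2 : {u | (GG F).dist v u ≤ n}.ncard ≤ Nat.card (OV F) := by
    rw [← Set.ncard_univ]
    exact Set.ncard_le_ncard (Set.subset_univ _) Set.finite_univ
  have h3 : ({u | (GG F).dist v u ≤ n}.ncard : ℝ) ≤ (Nat.card (OV F) : ℝ) := by exact_mod_cast h2
  linarith

theorem GG_locfin (v : OV F) : ((GG F).neighborSet v).Finite := by
  apply (Set.finite_range (fun f : Fin 3 => sgo f v)).subset
  rintro u ⟨f, hf⟩
  exact ⟨f, hf⟩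

theorem cheeger_zero (hk : ∀ i, i ≤ (F i).k) (H : (GG F).Subgraph) (hH : H.verts.Infinite) :
    cheeger H.coe = 0 := by
  obtain ⟨x, hx⟩ := hH.nonempty
  have key : ∀ n : ℕ, cheeger H.coe ≤ ((n:ENNReal))⁻¹ := by
    intro n
    obtain ⟨S, E, hS, hSH, hb, hc⟩ := core hk H x hx n
    have hSc : 0 < S.card := Finset.card_pos.2 hS
    let S' : Finset H.verts := S.subtype (fun v => v ∈ H.verts)
    have hS'c : S'.card = S.card := by
      rw [Finset.card_subtype, Finset.filter_true_of_mem hSH]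
    have hS'n : S'.Nonempty := by rw [← Finset.card_pos, hS'c]; exact hSc
    let φ : OV F → Sym2 H.verts := fun a =>
      if h : a ∈ H.verts ∧ sgo 2 a ∈ H.verts then s(⟨a, h.1⟩, ⟨sgo 2 a, h.2⟩)
      else s(⟨x, hx⟩, ⟨x, hx⟩)
    have hsub : edgeBoundary H.coe (S' : Set H.verts) ⊆ φ '' (E : Set (OV F)) := by
      rintro e ⟨a, b, hab, ha, hnb, rfl⟩
      have ha' : a.1 ∈ S := Finset.mem_subtype.1 ha
      have hb' : b.1 ∉ S := fun h => hnb (Finset.mem_subtype.2 h)
      obtain ⟨h1, h2⟩ := hb a.1 ha' b.1 hb' hab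
      refine ⟨a.1, h1, ?_⟩
      have h3 : a.1 ∈ H.verts ∧ sgo 2 a.1 ∈ H.verts := ⟨a.2, h2 ▸ b.2⟩
      have hb2 : b = ⟨sgo 2 a.1, h3.2⟩ := Subtype.ext h2
      simp only [φ, dif_pos h3]
      rw [hb2]
    have hcard : (edgeBoundary H.coe (S' : Set H.verts)).encard ≤ (E.card : ℕ∞) := by
      refine (Set.encard_le_encard hsub).trans ((Set.encard_image_le _ _).trans ?_)
      rw [Set.encard_coe_eq_coe_finsetCard]
    have h1 : cheeger H.coe ≤ ((edgeBoundary H.coe (S' : Set H.verts)).encard : ENNReal) /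
        ((S'.card : ℕ) : ENNReal) := iInf₂_le S' hS'n
    refine h1.trans ?_
    rw [hS'c]
    have h2 : ((edgeBoundary H.coe (S' : Set H.verts)).encard : ENNReal) ≤ (E.card : ENNReal) := by
      have := ENat.toENNReal_mono hcard
      simpa using this
    refine (ENNReal.div_le_div_right h2 _).trans ?_
    rw [ENNReal.div_le_iff (by exact_mod_cast hSc.ne') (ENNReal.natCast_ne_top _)]
    rcases Nat.eq_zero_or_pos n with rfl | hn
    · simp only [Nat.cast_zero, ENNReal.inv_zero]
      rw [ENNReal.top_mul (by exact_mod_cast hSc.ne')]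
      exact le_top
    · rw [← ENNReal.div_eq_inv_mul, ENNReal.le_div_iff_mul_le (Or.inl (by exact_mod_cast hn.ne'))
        (Or.inl (ENNReal.natCast_ne_top _))]
      have h3 : E.card * n ≤ S.card := (Nat.mul_le_mul_left _ (Nat.le_succ n)).trans hc
      exact_mod_cast h3
  by_contra hne
  obtain ⟨n, hn⟩ := ENNReal.exists_inv_nat_lt hne
  exact absurd (key n) (not_le.2 hn)

end

/-- Some connected, infinite, locally finite graph with uniform exponential growth has
`h(H) = 0` for each of its infinite subgraphs `H`. -/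
theorem result : ∃ (V : Type) (G : SimpleGraph V), Infinite V ∧ G.Connected ∧
    (∀ v, (G.neighborSet v).Finite) ∧ (∀ (v : V) (r : ℝ), (ball G v r).Finite) ∧
    UniformVolumeGrowth G ∧ ExponentialGrowth G ∧
    ∀ H : G.Subgraph, H.verts.Infinite → cheeger H.coe = 0 := by
  obtain ⟨F, hF, hk⟩ := fam_ex
  refine ⟨OV F, GG F, GG_inf hF, GG_conn, GG_locfin, ?_, GG_uniform hF, GG_exp hF,
    fun H hH => cheeger_zero hk H hH⟩
  intro v r
  apply (ball_fin (hinv := sgo_inv) (hne := sgo_ne) (GG_conn (F := F)) v ⌊r⌋₊).subset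
  rintro u ⟨_, h⟩
  exact Nat.le_floor h

end Pool.Agent.Results.MP_fc4263_co.NoCheegerSubgraph
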